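import Pool.Agent.H361R2.PA.PreMod

set_option autoImplicit false
set_option maxHeartbeats 4000000

/-! # Representations prime + element of a set: the first elements of the set can be avoided -/

namespace Pool.Agent.H361R2.PA

open Finset Filter

open scoped Classical

theorem first_elements (Q : ℕ) (hQ : 0 < Q) (r : ℤ) : ∃ c : ℝ, 0 < c ∧ ∃ X₀ : ℝ, ∀ X : ℝ, X₀ ≤ X →
    ∀ P : ℕ → Prop, ∃ n : ℕ, X < n ∧ (n : ℝ) ≤ 2 * X ∧
      (∀ q : ℕ, q.Prime → q ∣ Q → (q : ℤ) ∣ (n : ℤ) - r) ∧
      ∀ p t : ℕ, p.Prime → p + t = n → P t →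
        c * (Real.log X * Real.log (Real.log X)) < Nat.count P t := by
  obtain ⟨c, hc, X₀, h⟩ := arbitrary_mod 2 Q hQ
  have hev : ∃ X₁ : ℝ, ∀ X : ℝ, X₁ ≤ X → 8 ≤ X ∧ 2 ≤ Real.log X ∧
      2 ≤ c * (Real.log X * Real.log (Real.log X)) := by
    have t2 := Real.tendsto_log_atTop
    have t3 := t2.comp t2
    have t4 := (t2.atTop_mul_atTop₀ t3).const_mul_atTop hc
    have hh := ((eventually_ge_atTop (8 : ℝ)).and (t2.eventually_ge_atTop 2)).and
      (t4.eventually_ge_atTop 2)
    obtain ⟨X₁, hX₁⟩ := eventually_atTop.1 hh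
    refine ⟨X₁, fun X hX => ?_⟩
    obtain ⟨⟨a1, a2⟩, a3⟩ := hX₁ X hX
    exact ⟨a1, a2, a3⟩
  obtain ⟨X₁, hX₁⟩ := hev
  refine ⟨c / 2, by positivity, max X₀ X₁, fun X hX P => ?_⟩
  have hX0 : X₀ ≤ X := (le_max_left _ _).trans hX
  obtain ⟨b1, b2, b3⟩ := hX₁ X ((le_max_right _ _).trans hX)
  set M := c / 2 * (Real.log X * Real.log (Real.log X)) with hM
  have hM1 : 1 ≤ M := by rw [hM]; linarith
  set S : Finset ℕ := (range (⌊2 * X⌋₊ + 1)).filter (fun t => P t ∧ (Nat.count P t : ℝ) ≤ M) with hS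
  have hScard : (S.card : ℝ) ≤ c * (Real.log X * Real.log (Real.log X)) := by
    have h1 : S.card ≤ (range (⌊M⌋₊ + 1)).card := by
      apply card_le_card_of_injOn (fun t => Nat.count P t)
      · intro t ht
        rw [mem_coe, hS, mem_filter] at ht
        rw [mem_coe, mem_range]
        have := Nat.le_floor ht.2.2
        show Nat.count P t < ⌊M⌋₊ + 1
        omega
      · intro t ht t' ht' heq
        rw [mem_coe, hS, mem_filter] at ht ht'
        exact Nat.count_injective ht.2.1 ht'.2.1 heq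
    rw [card_range] at h1
    have h2 : (S.card : ℝ) ≤ (⌊M⌋₊ : ℝ) + 1 := by exact_mod_cast h1
    have h3 := Nat.floor_le (show 0 ≤ M by linarith)
    have h4 : 2 * M = c * (Real.log X * Real.log (Real.log X)) := by rw [hM]; ring
    linarith
  set A : Finset ℤ := S.image (fun t : ℕ => -(t : ℤ)) with hA
  have hAcard : (A.card : ℝ) ≤ c * (Real.log X * Real.log (Real.log X)) := by
    refine le_trans ?_ hScard
    exact_mod_cast card_image_le
  obtain ⟨n, hn1, hn2, hn3, hn4⟩ := h X hX0 A hAcard (by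
    intro a ha
    rw [hA, mem_image] at ha
    obtain ⟨t, ht, rfl⟩ := ha
    rw [hS, mem_filter, mem_range] at ht
    have h1 : (t : ℝ) ≤ 2 * X := by
      have h2 : t ≤ ⌊2 * X⌋₊ := by omega
      exact (Nat.le_floor_iff (by linarith)).1 h2
    push_cast
    rw [abs_neg, abs_of_nonneg (Nat.cast_nonneg t)]
    have h2 : 2 * X ≤ Real.exp (Real.log X ^ 2) := by
      have hXpos : 0 < X := by linarith
      have h3 : 2 * X ≤ X * X := by nlinarith
      have h4 : X * X = Real.exp (2 * Real.log X) := by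
        rw [two_mul, Real.exp_add, Real.exp_log hXpos]
      have h5 : 2 * Real.log X ≤ Real.log X ^ 2 := by nlinarith
      calc 2 * X ≤ X * X := h3
        _ = Real.exp (2 * Real.log X) := h4
        _ ≤ _ := Real.exp_le_exp.2 h5
    linarith) r ⌊X⌋
  have hfl := Int.floor_le X
  have hfl2 := Int.lt_floor_add_one X
  have hXn : X < n := by linarith
  have hn2X : (n : ℝ) ≤ 2 * X := by linarith
  have hn0 : 0 ≤ n := by
    have : (0 : ℝ) < n := by linarith
    have h5 : (0 : ℤ) < n := by exact_mod_cast this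
    omega
  have hcast : ((n.toNat : ℕ) : ℤ) = n := Int.toNat_of_nonneg hn0
  have hcastR : ((n.toNat : ℕ) : ℝ) = n := by exact_mod_cast hcast
  refine ⟨n.toNat, by rw [hcastR]; exact hXn, by rw [hcastR]; exact hn2X, ?_, ?_⟩
  · rw [hcast]; exact hn3
  · intro p t hp hpt hPt
    by_contra hcon
    push Not at hcon
    have htS : t ∈ S := by
      rw [hS, mem_filter, mem_range]
      refine ⟨?_, hPt, hcon⟩
      have h1 : (t : ℝ) ≤ 2 * X := by
        have h2 : t ≤ n.toNat := by omega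
        have h3 : (t : ℝ) ≤ ((n.toNat : ℕ) : ℝ) := by exact_mod_cast h2
        rw [hcastR] at h3
        linarith
      have h2 := Nat.le_floor h1
      omega
    apply hn4 (-(t : ℤ)) (by rw [hA]; exact mem_image_of_mem _ htS)
    have h5 : n + -(t : ℤ) = p := by
      rw [← hcast, ← hpt]; push_cast; ring
    rw [h5]
    exact Nat.prime_iff_prime_int.1 hp

end Pool.Agent.H361R2.PA
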