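import Pool.Agent.H318R2.Cr.Prod

set_option autoImplicit false
set_option maxHeartbeats 4000000

/-! # Greedy choice of classes for functions with `f m ≡ f m'` when `m ≡ ± m'` -/

namespace Pool.Agent.H361R2.PA

open Finset Filter Pool.Agent.H318R2.Cr

open scoped Classical

/-- `f` is defined modulo every prime and even there, and divisible by the primes dividing `m` -/
def EvenMod (f : ℕ → ℤ) : Prop :=
  (∀ p m : ℕ, p.Prime → p ∣ m → (p : ℤ) ∣ f m) ∧
  ∀ p m m' : ℕ, p.Prime → (p ∣ m + m' ∨ m % p = m' % p) → (p : ℤ) ∣ f m - f m'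

/-- the weight -/
noncomputable def ww (p : ℕ) : ℝ := 1 - 2 / p + 2 / (p * (p - 1))

theorem ww_nonneg (p : ℕ) (hp : 3 ≤ p) : 0 ≤ ww p := by
  have h : (3 : ℝ) ≤ p := by exact_mod_cast hp
  unfold ww
  have h1 : 2 / (p : ℝ) ≤ 1 := by rw [div_le_one (by linarith)]; linarith
  have h2 : 0 ≤ 2 / ((p : ℝ) * (p - 1)) := by
    apply div_nonneg (by norm_num)
    nlinarith
  linarith

/-- one prime -/
theorem one_even (f : ℕ → ℤ) (hf : EvenMod f) (p : ℕ) (hp : p.Prime) (hp3 : 3 ≤ p)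
    (R : Finset ℕ) : ∃ c : ℕ,
    ((R.filter (fun m => ¬ (p : ℤ) ∣ (c : ℤ) + f m)).card : ℝ) ≤ R.card * ww p := by
  have hp3' : (3 : ℝ) ≤ p := by exact_mod_cast hp3
  have hp0 : (0 : ℝ) < p := by linarith
  have hp1 : (0 : ℝ) < (p : ℝ) - 1 := by linarith
  set R0 := R.filter (fun m => p ∣ m) with hR0
  set R1 := R.filter (fun m => ¬ p ∣ m) with hR1
  have hsum : (R0.card : ℝ) + R1.card = R.card := by
    have := card_filter_add_card_filter_not (s := R) (fun m => p ∣ m)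
    exact_mod_cast this
  have hRn : (0 : ℝ) ≤ R.card := Nat.cast_nonneg _
  by_cases hcase : 2 / (p : ℝ) * R.card ≤ R0.card
  · refine ⟨0, ?_⟩
    have h1 : (R.filter (fun m => ¬ (p : ℤ) ∣ ((0 : ℕ) : ℤ) + f m)) ⊆ R1 := by
      intro m hm
      rw [mem_filter] at hm
      rw [hR1, mem_filter]
      refine ⟨hm.1, fun hd => hm.2 ?_⟩
      have := hf.1 p m hp hd
      simpa using this
    have h2 : ((R.filter (fun m => ¬ (p : ℤ) ∣ ((0 : ℕ) : ℤ) + f m)).card : ℝ) ≤ R1.card := by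
      exact_mod_cast card_le_card h1
    refine h2.trans ?_
    unfold ww
    have h3 : 0 ≤ 2 / ((p : ℝ) * (p - 1)) * R.card := by positivity
    nlinarith
  · push Not at hcase
    have hne : (Icc 1 ((p - 1) / 2)).Nonempty := ⟨1, mem_Icc.2 ⟨le_rfl, by omega⟩⟩
    have hodd : p % 2 = 1 := by
      rcases hp.eq_two_or_odd with h | h
      · omega
      · exact h
    obtain ⟨s, hs, hcs⟩ := Finset.exists_le_card_fiber_of_nsmul_le_card_of_maps_to
      (s := R1) (t := Icc 1 ((p - 1) / 2)) (f := fun m => min (m % p) (p - m % p))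
      (b := (R1.card : ℝ) * 2 / (p - 1))
      (by
        intro m hm
        rw [hR1, mem_filter] at hm
        have h1 : m % p ≠ 0 := fun h => hm.2 (Nat.dvd_of_mod_eq_zero h)
        have h2 : m % p < p := Nat.mod_lt _ hp.pos
        rw [mem_Icc]
        constructor
        · rw [le_min_iff]; omega
        · rcases le_total (m % p) (p - m % p) with h | h
          · rw [min_eq_left h]; omega
          · rw [min_eq_right h]; omega)
      hne
      (by
        rw [Nat.card_Icc, nsmul_eq_mul]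
        have h1 : (((p - 1) / 2 + 1 - 1 : ℕ) : ℝ) = ((p : ℝ) - 1) / 2 := by
          have h2 : 2 * ((p - 1) / 2 + 1 - 1) = p - 1 := by omega
          have h3 : (2 : ℝ) * (((p - 1) / 2 + 1 - 1 : ℕ) : ℝ) = ((p - 1 : ℕ) : ℝ) := by
            exact_mod_cast h2
          rw [Nat.cast_sub hp.pos] at h3
          push_cast at h3 ⊢
          linarith
        rw [h1]
        apply le_of_eq
        field_simp)
    have hp' : (0 : ℤ) < p := by exact_mod_cast hp.pos
    refine ⟨((-(f s)) % (p : ℤ)).toNat, ?_⟩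
    have hcc : ((((-(f s)) % (p : ℤ)).toNat : ℕ) : ℤ) = (-(f s)) % (p : ℤ) :=
      Int.toNat_of_nonneg (Int.emod_nonneg _ hp'.ne')
    rw [hcc]
    have hhit : ∀ m ∈ R1.filter (fun m => min (m % p) (p - m % p) = s),
        (p : ℤ) ∣ (-(f s)) % (p : ℤ) + f m := by
      intro m hm
      rw [mem_filter] at hm
      have h1 : (p : ℤ) ∣ f m - f s := by
        apply hf.2 p m s hp
        have h2 : m % p < p := Nat.mod_lt _ hp.pos
        rcases le_total (m % p) (p - m % p) with h | h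
        · right
          rw [min_eq_left h] at hm
          rw [← hm.2, Nat.mod_mod]
        · left
          rw [min_eq_right h] at hm
          have h3 : m + s = p * (m / p) + p := by
            have := Nat.div_add_mod m p
            omega
          rw [h3]
          exact Dvd.intro (m / p + 1) (by ring)
      have h4 := Int.emod_add_mul_ediv (-(f s)) (p : ℤ)
      obtain ⟨u, hu⟩ := h1
      exact ⟨u - (-(f s)) / (p : ℤ), by linarith⟩
    have h1 : R1.filter (fun m => min (m % p) (p - m % p) = s) ⊆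
        R.filter (fun m => (p : ℤ) ∣ (-(f s)) % (p : ℤ) + f m) := by
      intro m hm
      rw [mem_filter]
      refine ⟨?_, hhit m hm⟩
      rw [mem_filter, hR1, mem_filter] at hm
      exact hm.1.1
    have h2 : ((R1.filter (fun m => min (m % p) (p - m % p) = s)).card : ℝ) ≤
        ((R.filter (fun m => (p : ℤ) ∣ (-(f s)) % (p : ℤ) + f m)).card : ℝ) := by
      exact_mod_cast card_le_card h1
    have h3 : ((R.filter (fun m => (p : ℤ) ∣ (-(f s)) % (p : ℤ) + f m)).card : ℝ) +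
        ((R.filter (fun m => ¬ (p : ℤ) ∣ (-(f s)) % (p : ℤ) + f m)).card : ℝ) = R.card := by
      exact_mod_cast card_filter_add_card_filter_not (s := R) _
    have h4 : (1 - 2 / (p : ℝ)) * R.card ≤ R1.card := by nlinarith
    have h5 : (1 - 2 / (p : ℝ)) * R.card * 2 / (p - 1) ≤ (R1.card : ℝ) * 2 / (p - 1) := by
      gcongr
    have h6 : (R.card : ℝ) * ww p = R.card - (1 - 2 / (p : ℝ)) * R.card * 2 / (p - 1) := by
      unfold ww
      field_simp
      ring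
    rw [h6]
    linarith

/-- all primes of `S` -/
theorem greedy_even (f : ℕ → ℤ) (hf : EvenMod f) (S : Finset ℕ)
    (hS : ∀ p ∈ S, p.Prime ∧ 3 ≤ p) : ∀ R : Finset ℕ, ∃ b : ℕ → ℕ,
    ((R.filter (fun m => ∀ p ∈ S, ¬ (p : ℤ) ∣ (b p : ℤ) + f m)).card : ℝ) ≤
      R.card * ∏ p ∈ S, ww p := by
  induction S using Finset.induction_on with
  | empty => intro A; exact ⟨fun _ => 0, by simp⟩
  | insert p S hpS ih =>
    intro A
    obtain ⟨hp, hp3⟩ := hS p (mem_insert_self _ _)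
    obtain ⟨c, hc⟩ := one_even f hf p hp hp3 A
    obtain ⟨b, hb⟩ := ih (fun q hq => hS q (mem_insert_of_mem hq))
      (A.filter (fun m => ¬ (p : ℤ) ∣ (c : ℤ) + f m))
    refine ⟨Function.update b p c, ?_⟩
    have h8 : A.filter (fun m => ∀ q ∈ insert p S, ¬ (q : ℤ) ∣ (Function.update b p c q : ℤ) + f m) ⊆
        (A.filter (fun m => ¬ (p : ℤ) ∣ (c : ℤ) + f m)).filter
          (fun m => ∀ q ∈ S, ¬ (q : ℤ) ∣ (b q : ℤ) + f m) := by
      intro x hx
      rw [mem_filter] at hx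
      rw [mem_filter, mem_filter]
      refine ⟨⟨hx.1, ?_⟩, ?_⟩
      · have := hx.2 p (mem_insert_self _ _)
        rwa [Function.update_self] at this
      · intro q hq
        have h9 : q ≠ p := fun h => hpS (h ▸ hq)
        have := hx.2 q (mem_insert_of_mem hq)
        rwa [Function.update_of_ne h9] at this
    have h0 : 0 ≤ ∏ q ∈ S, ww q := prod_nonneg fun q hq =>
      ww_nonneg q (hS q (mem_insert_of_mem hq)).2
    rw [prod_insert hpS]
    calc _ ≤ (((A.filter (fun m => ¬ (p : ℤ) ∣ (c : ℤ) + f m)).filter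
          (fun m => ∀ q ∈ S, ¬ (q : ℤ) ∣ (b q : ℤ) + f m)).card : ℝ) := by
            exact_mod_cast card_le_card h8
      _ ≤ _ := hb
      _ ≤ (A.card * ww p) * ∏ q ∈ S, ww q := by gcongr
      _ = _ := by ring

/-- the same for an arbitrary function -/
theorem one_any (f : ℕ → ℤ) (p : ℕ) (hp : 0 < p) (R : Finset ℕ) : ∃ c : ℕ,
    ((R.filter (fun m => ¬ (p : ℤ) ∣ (c : ℤ) + f m)).card : ℝ) ≤ R.card * (1 - 1 / (p : ℝ)) := by
  have hp0 : (0 : ℝ) < p := by exact_mod_cast hp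
  have hp' : (0 : ℤ) < p := by exact_mod_cast hp
  obtain ⟨c, _, hc⟩ := Finset.exists_le_card_fiber_of_nsmul_le_card_of_maps_to
    (s := R) (t := range p) (f := fun m => ((-(f m)) % (p : ℤ)).toNat) (b := (R.card : ℝ) / p)
    (by
      intro m _
      rw [mem_range]
      have h1 := Int.emod_lt_of_pos (-(f m)) hp'
      have h2 := Int.emod_nonneg (-(f m)) hp'.ne'
      omega)
    ⟨0, mem_range.2 hp⟩
    (by
      rw [card_range, nsmul_eq_mul]
      rw [mul_div_cancel₀ _ hp0.ne'])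
  refine ⟨c, ?_⟩
  have h1 : (R.filter (fun m => ((-(f m)) % (p : ℤ)).toNat = c)) ⊆
      R.filter (fun m => (p : ℤ) ∣ (c : ℤ) + f m) := by
    intro m ha
    rw [mem_filter] at ha ⊢
    refine ⟨ha.1, ?_⟩
    have h2 := Int.emod_nonneg (-(f m)) hp'.ne'
    have h3 : ((-(f m)) % (p : ℤ)) = c := by
      have := ha.2
      omega
    have h4 := Int.emod_add_mul_ediv (-(f m)) (p : ℤ)
    rw [h3] at h4
    exact ⟨-((-(f m)) / (p : ℤ)), by linarith⟩
  have h2 := card_le_card h1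
  have h3 := card_filter_add_card_filter_not (s := R) (fun m => (p : ℤ) ∣ (c : ℤ) + f m)
  have h4 : ((R.filter (fun m => (p : ℤ) ∣ (c : ℤ) + f m)).card : ℝ) +
      ((R.filter (fun m => ¬ (p : ℤ) ∣ (c : ℤ) + f m)).card : ℝ) = R.card := by exact_mod_cast h3
  have h5 : ((R.filter (fun m => ((-(f m)) % (p : ℤ)).toNat = c)).card : ℝ) ≤
      ((R.filter (fun m => (p : ℤ) ∣ (c : ℤ) + f m)).card : ℝ) := by exact_mod_cast h2
  have h6 : (R.card : ℝ) * (1 - 1 / (p : ℝ)) = R.card - R.card / p := by ring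
  rw [h6]
  linarith

theorem greedy_any (f : ℕ → ℤ) (S : Finset ℕ) (hS : ∀ p ∈ S, p.Prime) :
    ∀ R : Finset ℕ, ∃ b : ℕ → ℕ,
    ((R.filter (fun m => ∀ p ∈ S, ¬ (p : ℤ) ∣ (b p : ℤ) + f m)).card : ℝ) ≤
      R.card * ∏ p ∈ S, (1 - 1 / (p : ℝ)) := by
  induction S using Finset.induction_on with
  | empty => intro A; exact ⟨fun _ => 0, by simp⟩
  | insert p S hpS ih =>
    intro A
    have hp := hS p (mem_insert_self _ _)
    obtain ⟨c, hc⟩ := one_any f p hp.pos A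
    obtain ⟨b, hb⟩ := ih (fun q hq => hS q (mem_insert_of_mem hq))
      (A.filter (fun m => ¬ (p : ℤ) ∣ (c : ℤ) + f m))
    refine ⟨Function.update b p c, ?_⟩
    have h8 : A.filter (fun m => ∀ q ∈ insert p S, ¬ (q : ℤ) ∣ (Function.update b p c q : ℤ) + f m) ⊆
        (A.filter (fun m => ¬ (p : ℤ) ∣ (c : ℤ) + f m)).filter
          (fun m => ∀ q ∈ S, ¬ (q : ℤ) ∣ (b q : ℤ) + f m) := by
      intro x hx
      rw [mem_filter] at hx
      rw [mem_filter, mem_filter]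
      refine ⟨⟨hx.1, ?_⟩, ?_⟩
      · have := hx.2 p (mem_insert_self _ _)
        rwa [Function.update_self] at this
      · intro q hq
        have h9 : q ≠ p := fun h => hpS (h ▸ hq)
        have := hx.2 q (mem_insert_of_mem hq)
        rwa [Function.update_of_ne h9] at this
    have h0 : 0 ≤ ∏ q ∈ S, (1 - 1 / (q : ℝ)) := prod_nonneg fun q hq =>
      (one_sub_inv_pos (hS q (mem_insert_of_mem hq))).le
    rw [prod_insert hpS]
    calc _ ≤ (((A.filter (fun m => ¬ (p : ℤ) ∣ (c : ℤ) + f m)).filter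
          (fun m => ∀ q ∈ S, ¬ (q : ℤ) ∣ (b q : ℤ) + f m)).card : ℝ) := by
            exact_mod_cast card_le_card h8
      _ ≤ _ := hb
      _ ≤ (A.card * (1 - 1 / (p : ℝ))) * ∏ q ∈ S, (1 - 1 / (q : ℝ)) := by gcongr
      _ = _ := by ring

/-- products over a subset of the primes `≤ v` that contains all primes not dividing `Q` -/
theorem prod_any (Q v : ℕ) (hQ : 0 < Q) :
    ∏ p ∈ (Pz v).filter (fun p => ¬ p ∣ Q), (1 - 1 / (p : ℝ)) ≤ (2 : ℝ) ^ Q * V v := by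
  have h1 : V v = (∏ p ∈ (Pz v).filter (fun p => p ∣ Q), (1 - 1 / (p : ℝ))) *
      ∏ p ∈ (Pz v).filter (fun p => ¬ p ∣ Q), (1 - 1 / (p : ℝ)) := by
    unfold V
    rw [prod_filter_mul_prod_filter_not]
  have h2 : (1 / 2 : ℝ) ^ Q ≤ ∏ p ∈ (Pz v).filter (fun p => p ∣ Q), (1 - 1 / (p : ℝ)) := by
    have hc : ((Pz v).filter (fun p => p ∣ Q)).card ≤ Q := by
      have : (Pz v).filter (fun p => p ∣ Q) ⊆ Icc 1 Q := by
        intro p hp
        rw [mem_filter, mem_Pz] at hp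
        rw [mem_Icc]
        exact ⟨hp.1.1.pos, Nat.le_of_dvd hQ hp.2⟩
      simpa using card_le_card this
    calc (1 / 2 : ℝ) ^ Q ≤ (1 / 2 : ℝ) ^ ((Pz v).filter (fun p => p ∣ Q)).card :=
          pow_le_pow_of_le_one (by norm_num) (by norm_num) hc
      _ = ∏ p ∈ (Pz v).filter (fun p => p ∣ Q), (1 / 2 : ℝ) := by rw [prod_const]
      _ ≤ _ := by
        apply Finset.prod_le_prod
        · intro _ _; norm_num
        · intro p hp
          rw [mem_filter, mem_Pz] at hp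
          have h3 : (2 : ℝ) ≤ p := by exact_mod_cast hp.1.1.two_le
          have : 1 / (p : ℝ) ≤ 1 / 2 := one_div_le_one_div_of_le (by norm_num) h3
          linarith
  have h3 : 0 ≤ ∏ p ∈ (Pz v).filter (fun p => ¬ p ∣ Q), (1 - 1 / (p : ℝ)) :=
    prod_nonneg fun p hp => (one_sub_inv_pos (mem_Pz.1 (mem_filter.1 hp).1).1).le
  have h4 : (2 : ℝ) ^ Q * (1 / 2) ^ Q = 1 := by rw [← mul_pow]; norm_num
  calc ∏ p ∈ (Pz v).filter (fun p => ¬ p ∣ Q), (1 - 1 / (p : ℝ))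
      = (2 : ℝ) ^ Q * ((1 / 2) ^ Q * ∏ p ∈ (Pz v).filter (fun p => ¬ p ∣ Q), (1 - 1 / (p : ℝ))) := by
        rw [← mul_assoc, h4, one_mul]
    _ ≤ (2 : ℝ) ^ Q * V v := by
      rw [h1]
      gcongr

theorem sum_sq (v : ℕ) (S : Finset ℕ) (hS : ∀ p ∈ S, 3 ≤ p ∧ p ≤ v) :
    ∑ p ∈ S, 7 / (p : ℝ) ^ 2 ≤ 7 := by
  have h1 : ∀ n : ℕ, ∑ k ∈ Icc 1 n, 1 / ((k : ℝ) + 1) ^ 2 ≤ 1 - 1 / ((n : ℝ) + 1) := by
    intro n
    induction n with
    | zero => simp
    | succ n ih =>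
      rw [sum_Icc_succ_top (by omega)]
      push_cast
      have h0 : (0 : ℝ) ≤ n := Nat.cast_nonneg n
      have h2 : 1 / ((n : ℝ) + 1 + 1) ^ 2 ≤ 1 / ((n : ℝ) + 1) - 1 / ((n : ℝ) + 1 + 1) := by
        rw [div_sub_div _ _ (by positivity) (by positivity), div_le_div_iff₀ (by positivity) (by positivity)]
        nlinarith
      linarith
  have h2 : ∑ p ∈ S, 1 / (p : ℝ) ^ 2 ≤ ∑ k ∈ Icc 1 v, 1 / ((k : ℝ) + 1) ^ 2 := by
    have h3 : ∑ p ∈ S, 1 / (p : ℝ) ^ 2 =
        ∑ k ∈ S.image (fun p : ℕ => p - 1), 1 / ((k : ℝ) + 1) ^ 2 := by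
      rw [sum_image]
      · apply sum_congr rfl
        intro p hp
        have := (hS p hp).1
        rw [Nat.cast_sub (by omega)]
        push_cast
        ring_nf
      · intro a ha b hb h
        have h4 := (hS a ha).1
        have h5 := (hS b hb).1
        have h6 : a - 1 = b - 1 := h
        omega
    rw [h3]
    apply sum_le_sum_of_subset_of_nonneg
    · intro k hk
      rw [mem_image] at hk
      obtain ⟨p, hp, rfl⟩ := hk
      have := hS p hp
      rw [mem_Icc]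
      omega
    · intro _ _ _; positivity
  have h3 := h1 v
  have h4 : 0 ≤ 1 / ((v : ℝ) + 1) := by positivity
  have h5 : ∑ p ∈ S, 7 / (p : ℝ) ^ 2 = 7 * ∑ p ∈ S, 1 / (p : ℝ) ^ 2 := by
    rw [mul_sum]
    apply sum_congr rfl
    intro p _
    ring
  rw [h5]
  linarith

theorem prod_even (Q v : ℕ) (hQ : 0 < Q) :
    ∏ p ∈ (Pz v).filter (fun p => ¬ p ∣ Q ∧ 3 ≤ p), ww p ≤
      Real.exp 7 * (4 * (4 : ℝ) ^ Q) * V v ^ 2 := by
  have h1 : ∀ p ∈ (Pz v).filter (fun p => ¬ p ∣ Q ∧ 3 ≤ p), ww p ≤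
      (1 - 1 / (p : ℝ)) ^ 2 * Real.exp (7 / (p : ℝ) ^ 2) := by
    intro p hp
    rw [mem_filter, mem_Pz] at hp
    have h3 : (3 : ℝ) ≤ p := by exact_mod_cast hp.2.2
    have h4 := Real.add_one_le_exp (7 / (p : ℝ) ^ 2)
    have h5 : ww p ≤ (1 - 1 / (p : ℝ)) ^ 2 * (7 / (p : ℝ) ^ 2 + 1) := by
      unfold ww
      have h6 : (0 : ℝ) < p := by linarith
      have h7 : (0 : ℝ) < (p : ℝ) - 1 := by linarith
      have e1 : 1 - 2 / (p : ℝ) + 2 / (p * (p - 1)) =
          ((p : ℝ) * (p - 1) - 2 * (p - 1) + 2) / (p * (p - 1)) := by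
        field_simp
      have e2 : (1 - 1 / (p : ℝ)) ^ 2 * (7 / (p : ℝ) ^ 2 + 1) =
          (((p : ℝ) - 1) ^ 2 * (7 + (p : ℝ) ^ 2)) / ((p : ℝ) ^ 4) := by
        field_simp
      rw [e1, e2, div_le_div_iff₀ (by positivity) (by positivity)]
      obtain ⟨q, hq⟩ : ∃ q : ℝ, (p : ℝ) = q + 3 := ⟨p - 3, by ring⟩
      have hq0 : 0 ≤ q := by linarith
      rw [hq]
      have : 0 ≤ (q + 3 - 1) ^ 2 * (7 + (q + 3) ^ 2) * ((q + 3) * (q + 3 - 1)) -
          ((q + 3) * (q + 3 - 1) - 2 * (q + 3 - 1) + 2) * (q + 3) ^ 4 := by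
        ring_nf
        positivity
      linarith
    exact h5.trans (mul_le_mul_of_nonneg_left h4 (sq_nonneg _))
  have h2 : ∏ p ∈ (Pz v).filter (fun p => ¬ p ∣ Q ∧ 3 ≤ p), ww p ≤
      ∏ p ∈ (Pz v).filter (fun p => ¬ p ∣ Q ∧ 3 ≤ p),
        ((1 - 1 / (p : ℝ)) ^ 2 * Real.exp (7 / (p : ℝ) ^ 2)) :=
    Finset.prod_le_prod (fun p hp => ww_nonneg p (mem_filter.1 hp).2.2) h1
  rw [prod_mul_distrib, prod_pow, ← Real.exp_sum] at h2
  have h3 : ∑ p ∈ (Pz v).filter (fun p => ¬ p ∣ Q ∧ 3 ≤ p), 7 / (p : ℝ) ^ 2 ≤ 7 := by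
    apply sum_sq v
    intro p hp
    rw [mem_filter, mem_Pz] at hp
    exact ⟨hp.2.2, hp.1.2⟩
  have h4 : ∏ p ∈ (Pz v).filter (fun p => ¬ p ∣ Q ∧ 3 ≤ p), (1 - 1 / (p : ℝ)) ≤
      2 * ((2 : ℝ) ^ Q * V v) := by
    have h5 := prod_any Q v hQ
    have h6 : ∏ p ∈ (Pz v).filter (fun p => ¬ p ∣ Q), (1 - 1 / (p : ℝ)) =
        (∏ p ∈ ((Pz v).filter (fun p => ¬ p ∣ Q)).filter (fun p => 3 ≤ p), (1 - 1 / (p : ℝ))) *
        ∏ p ∈ ((Pz v).filter (fun p => ¬ p ∣ Q)).filter (fun p => ¬ 3 ≤ p), (1 - 1 / (p : ℝ)) := by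
      rw [prod_filter_mul_prod_filter_not]
    rw [filter_filter] at h6
    have h7 : (1 / 2 : ℝ) ≤
        ∏ p ∈ ((Pz v).filter (fun p => ¬ p ∣ Q)).filter (fun p => ¬ 3 ≤ p), (1 - 1 / (p : ℝ)) := by
      have hsub : ((Pz v).filter (fun p => ¬ p ∣ Q)).filter (fun p => ¬ 3 ≤ p) ⊆ {2} := by
        intro p hp
        rw [mem_filter, mem_filter, mem_Pz] at hp
        have := hp.1.1.1.two_le
        rw [mem_singleton]
        omega
      rcases subset_singleton_iff.1 hsub with h | h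
      · rw [h]; norm_num
      · rw [h]; norm_num
    have h8 : 0 ≤ ∏ p ∈ (Pz v).filter (fun p => ¬ p ∣ Q ∧ 3 ≤ p), (1 - 1 / (p : ℝ)) :=
      prod_nonneg fun p hp => (one_sub_inv_pos (mem_Pz.1 (mem_filter.1 hp).1).1).le
    nlinarith
  have h8 : 0 ≤ ∏ p ∈ (Pz v).filter (fun p => ¬ p ∣ Q ∧ 3 ≤ p), (1 - 1 / (p : ℝ)) :=
    prod_nonneg fun p hp => (one_sub_inv_pos (mem_Pz.1 (mem_filter.1 hp).1).1).le
  calc _ ≤ _ := h2
    _ ≤ (2 * ((2 : ℝ) ^ Q * V v)) ^ 2 * Real.exp 7 := by gcongr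
    _ = _ := by
      have : (4 : ℝ) ^ Q = (2 : ℝ) ^ Q * (2 : ℝ) ^ Q := by rw [← mul_pow]; norm_num
      rw [this]
      ring

end Pool.Agent.H361R2.PA
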