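import Pool.Agent.H398R2.RK.Surv
import Pool.Agent.H318R2.Cr.Prod

set_option autoImplicit false
set_option maxHeartbeats 4000000

/-! # Integers without medium prime factors -/

namespace Pool.Agent.H361R2.PA

open Finset Filter Pool.Agent.H318R2.Cr Pool.Agent.H398R2.RK

open scoped Classical

/-- `log v` for the smoothness bound `v` -/
noncomputable def WW (y : ℝ) : ℝ :=
  Real.log y * Real.log (Real.log (Real.log y)) / (10 * Real.log (Real.log y))

/-- the `m ≤ L` all of whose prime factors are `> y` or at most `exp (WW y)` -/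
noncomputable def NM (y : ℝ) (L : ℕ) : Finset ℕ :=
  (Icc 1 L).filter (fun m => ∀ p : ℕ, p.Prime → p ∣ m → (y < p ∨ Real.log p ≤ WW y))

theorem harm (n : ℕ) (hn : 1 ≤ n) : ∑ k ∈ Icc 1 n, 1 / (k : ℝ) ≤ 1 + Real.log n := by
  have h := harmonic_le_one_add_log n
  have h2 : ((harmonic n : ℚ) : ℝ) = ∑ k ∈ Icc 1 n, 1 / (k : ℝ) := by
    rw [harmonic_eq_sum_Icc]
    push_cast
    apply sum_congr rfl
    intro k _
    rw [one_div]
  rw [← h2]
  exact h

theorem card_med : ∃ y₀ : ℝ, ∀ y : ℝ, y₀ ≤ y → ∀ L : ℕ, y ≤ L → (L : ℝ) ≤ y * (Real.log y) ^ 4 →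
    ((NM y L).card : ℝ) ≤ 60 * L * Real.log (Real.log y) / Real.log y := by
  obtain ⟨y₁, hsm⟩ := smooth_count
  refine ⟨max y₁ (Real.exp (Real.exp 1)), fun y hy L hyL hLy => ?_⟩
  have hy1 : y₁ ≤ y := (le_max_left _ _).trans hy
  have hy2 : Real.exp (Real.exp 1) ≤ y := (le_max_right _ _).trans hy
  have hy0 : 0 < y := (Real.exp_pos _).trans_le hy2
  have hly1 : Real.exp 1 ≤ Real.log y := by
    rw [← Real.log_exp (Real.exp 1)]; exact Real.log_le_log (Real.exp_pos _) hy2
  have hly : 2 ≤ Real.log y := by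
    have := Real.exp_one_gt_d9
    linarith
  have ht1 : 1 ≤ Real.log (Real.log y) := by
    rw [← Real.log_exp 1]; exact Real.log_le_log (Real.exp_pos _) hly1
  set t := Real.log (Real.log y) with ht
  have hyone : 2 ≤ y := by
    have h1 := Real.add_one_le_exp (Real.exp 1)
    have h2 := Real.exp_one_gt_d9
    linarith
  have hL0 : (0 : ℝ) < L := by linarith
  set K : ℕ := ⌊(Real.log y) ^ 4⌋₊ with hK
  have hK1 : 1 ≤ K := by
    rw [hK, Nat.one_le_floor_iff]
    exact one_le_pow₀ (by linarith)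
  have hKr : (K : ℝ) ≤ (Real.log y) ^ 4 := Nat.floor_le (by positivity)
  have hK0 : (0 : ℝ) < K := by exact_mod_cast hK1
  -- decomposition
  have hsub : NM y L ⊆ ((Icc 1 L).filter (fun m => ∀ p : ℕ, p.Prime → p ∣ m →
      Real.log p ≤ Real.log y * Real.log (Real.log (Real.log y)) /
        (10 * Real.log (Real.log y)))) ∪
      (Icc 1 K).biUnion (fun k => ((Icc 1 (L / k)).filter (fun q : ℕ => q.Prime ∧ y < q)).image
        (fun q => q * k)) := by
    intro m hm
    rw [NM, mem_filter] at hm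
    obtain ⟨hmI, hfac⟩ := hm
    rw [mem_Icc] at hmI
    rw [mem_union]
    by_cases hall : ∀ p : ℕ, p.Prime → p ∣ m → Real.log p ≤ WW y
    · left
      rw [mem_filter, mem_Icc]
      exact ⟨hmI, hall⟩
    · right
      push Not at hall
      obtain ⟨q, hq, hqm, hqW⟩ := hall
      have hqy : y < q := (hfac q hq hqm).resolve_right (not_le.2 hqW)
      obtain ⟨k, rfl⟩ := hqm
      have hk1 : 1 ≤ k := by
        rcases Nat.eq_zero_or_pos k with rfl | h
        · simp at hmI
        · exact h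
      have hk0 : (0 : ℝ) < k := by exact_mod_cast hk1
      have hkK : k ≤ K := by
        rw [hK, Nat.le_floor_iff (by positivity)]
        have h7 : (q : ℝ) * k ≤ L := by exact_mod_cast hmI.2
        have h9 : y * k ≤ y * (Real.log y) ^ 4 := by
          calc y * k ≤ q * k := by gcongr
            _ ≤ L := h7
            _ ≤ _ := hLy
        exact le_of_mul_le_mul_left h9 hy0
      rw [mem_biUnion]
      refine ⟨k, mem_Icc.2 ⟨hk1, hkK⟩, ?_⟩
      rw [mem_image]
      refine ⟨q, ?_, rfl⟩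
      rw [mem_filter, mem_Icc]
      refine ⟨⟨hq.pos, ?_⟩, hq, hqy⟩
      rw [Nat.le_div_iff_mul_le (by omega)]
      exact hmI.2
  have h1 : ((NM y L).card : ℝ) ≤ (((Icc 1 L).filter (fun m => ∀ p : ℕ, p.Prime → p ∣ m →
      Real.log p ≤ Real.log y * Real.log (Real.log (Real.log y)) /
        (10 * Real.log (Real.log y)))).card : ℝ) +
      ∑ k ∈ Icc 1 K, (((Icc 1 (L / k)).filter (fun q : ℕ => q.Prime ∧ y < q)).card : ℝ) := by
    have h2 := (card_le_card hsub).trans (card_union_le _ _)
    have h3 : ((Icc 1 K).biUnion (fun k => ((Icc 1 (L / k)).filter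
        (fun q : ℕ => q.Prime ∧ y < q)).image (fun q => q * k))).card ≤
        ∑ k ∈ Icc 1 K, ((Icc 1 (L / k)).filter (fun q : ℕ => q.Prime ∧ y < q)).card := by
      refine card_biUnion_le.trans (sum_le_sum fun k _ => card_image_le)
    exact_mod_cast h2.trans (Nat.add_le_add_left h3 _)
  have h2 := hsm y hy1 L hyL
  have h3 : ∀ k ∈ Icc 1 K, (((Icc 1 (L / k)).filter (fun q : ℕ => q.Prime ∧ y < q)).card : ℝ) ≤
      10 * L / Real.log y * (1 / (k : ℝ)) := by
    intro k hk
    rw [mem_Icc] at hk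
    have hk0 : (0 : ℝ) < k := by exact_mod_cast (by omega : 0 < k)
    by_cases hLk : y < ((L / k : ℕ) : ℝ)
    · have h4 : 2 ≤ L / k := by
        have : (2 : ℝ) < ((L / k : ℕ) : ℝ) := by linarith
        have h5 : 2 < L / k := by exact_mod_cast this
        omega
      have h5 := primes_le (L / k) h4
      have h6 : (((Icc 1 (L / k)).filter (fun q : ℕ => q.Prime ∧ y < q)).card : ℝ) ≤
          (((Icc 1 (L / k)).filter Nat.Prime).card : ℝ) := by
        exact_mod_cast card_le_card (fun q hq => by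
          rw [mem_filter] at hq ⊢
          exact ⟨hq.1, hq.2.1⟩)
      have h7 : ((L / k : ℕ) : ℝ) ≤ (L : ℝ) / k := Nat.cast_div_le
      have h8 : Real.log y ≤ Real.log ((L / k : ℕ) : ℝ) := Real.log_le_log hy0 hLk.le
      calc _ ≤ 10 * ((L / k : ℕ) : ℝ) / Real.log ((L / k : ℕ) : ℝ) := h6.trans h5
        _ ≤ 10 * ((L : ℝ) / k) / Real.log y := by
          have e1 : 10 * ((L / k : ℕ) : ℝ) ≤ 10 * ((L : ℝ) / k) := by linarith
          have e2 : (0 : ℝ) ≤ 10 * ((L : ℝ) / k) := by positivity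
          have e3 : (0 : ℝ) < Real.log y := by linarith
          exact div_le_div₀ e2 e1 e3 h8
        _ = _ := by ring
    · have h4 : (Icc 1 (L / k)).filter (fun q : ℕ => q.Prime ∧ y < q) = ∅ := by
        rw [filter_eq_empty_iff]
        intro q hq h5
        rw [mem_Icc] at hq
        have h6 : (q : ℝ) ≤ ((L / k : ℕ) : ℝ) := by exact_mod_cast hq.2
        linarith [h5.2]
      rw [h4]
      simp only [card_empty, Nat.cast_zero]
      positivity
  have h4 := sum_le_sum h3
  rw [← mul_sum] at h4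
  have h5 := harm K hK1
  have h6 : Real.log K ≤ 4 * t := by
    calc Real.log K ≤ Real.log ((Real.log y) ^ 4) := Real.log_le_log hK0 hKr
      _ = 4 * t := by rw [Real.log_pow]; norm_num [ht]
  have h7 : 10 * (L : ℝ) / Real.log y * ∑ k ∈ Icc 1 K, 1 / (k : ℝ) ≤
      10 * L / Real.log y * (5 * t) := by
    apply mul_le_mul_of_nonneg_left _ (by positivity)
    linarith
  have h8 : (L : ℝ) / (Real.log y) ^ 3 ≤ L * t / Real.log y := by
    rw [div_le_div_iff₀ (by positivity) (by positivity)]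
    have e1 : Real.log y ≤ (Real.log y) ^ 3 := by
      calc Real.log y = (Real.log y) ^ 1 := (pow_one _).symm
        _ ≤ (Real.log y) ^ 3 := pow_le_pow_right₀ (by linarith) (by norm_num)
    have e2 : (Real.log y) ^ 3 ≤ t * (Real.log y) ^ 3 := by
      have : 0 ≤ (Real.log y) ^ 3 := by positivity
      nlinarith
    have e3 : Real.log y ≤ t * (Real.log y) ^ 3 := e1.trans e2
    calc (L : ℝ) * Real.log y ≤ L * (t * (Real.log y) ^ 3) := by gcongr
      _ = _ := by ring
  have h9 : 10 * (L : ℝ) / Real.log y * (5 * t) + L * t / Real.log y =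
      51 * L * t / Real.log y := by ring
  have h10 : 51 * (L : ℝ) * t / Real.log y ≤ 60 * L * t / Real.log y := by
    gcongr
    norm_num
  linarith

end Pool.Agent.H361R2.PA
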