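import Pool.Agent.H361R2.PA.Sc

set_option autoImplicit false
set_option maxHeartbeats 4000000

/-! # A record gap together with an arbitrary set -/

namespace Pool.Agent.H361R2.PA

open Finset Filter Pool.Agent.H318R2.Cr

open scoped Classical

/-- the numerical facts -/
theorem facts (K : ℝ) : ∃ c₂ : ℝ, 0 < c₂ ∧ ∃ X₀ : ℝ, ∀ X : ℝ, X₀ ≤ X →
    0 < X ∧ 10000 ≤ Real.log X ∧ 160 ≤ Real.log (Real.log X) ∧
    2 ≤ Real.log (Real.log (Real.log (Real.log X))) ∧
    Real.log (Real.log (Real.log (Real.log X))) ≤ Real.log (Real.log (Real.log X)) ∧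
    Real.log (Real.log (Real.log X)) ≤ Real.log (Real.log X) ∧
    K * Real.log (Real.log (Real.log X)) ≤ Real.log (Real.log X) ∧
    K ≤ Real.log X / 10 ∧ Real.log (Real.log X) ^ 3 ≤ Real.log X ∧
    K ≤ WW (Real.log X / 10) ∧ WW (Real.log X / 10) ≤ Real.log (Real.log X / 10) ∧
    Real.log (Real.log X) / 2 ≤ Real.log (Real.log X / 10) ∧
    0 < Real.log (Real.log (Real.log X / 10)) ∧
    Real.log (Real.log (Real.log X / 10)) ≤ Real.log (Real.log (Real.log X)) ∧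
    V ⌊Real.exp (WW (Real.log X / 10))⌋₊ ≤
      c₂ * Real.log (Real.log (Real.log X)) /
        (Real.log (Real.log X) * Real.log (Real.log (Real.log (Real.log X)))) := by
  obtain ⟨c₁, c₂, hc₁, hc₁₂, hV⟩ := cz_bounds
  have hc₂ : 0 < c₂ := hc₁.trans_le hc₁₂
  refine ⟨80 * c₂, by positivity, ?_⟩
  obtain ⟨X₃, hnum3⟩ := num2 (10 * K)
  obtain ⟨X₄, hnum4⟩ := num2 K
  obtain ⟨X₆, hnum6⟩ := num2 (40 * (|K| + 2))
  refine ⟨max X₃ (max X₄ X₆), ?_⟩
  intro X hX
  have hX3 : X₃ ≤ X := (le_max_left _ _).trans hX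
  have hX'' := (le_max_right _ _).trans hX
  have hX4 : X₄ ≤ X := (le_max_left _ _).trans hX''
  have hX6 : X₆ ≤ X := (le_max_right _ _).trans hX''
  obtain ⟨hX0, m1, m2, m3, -, m5, m6, m7⟩ := hnum3 X hX3
  obtain ⟨-, -, -, -, m9, -, -, -⟩ := hnum4 X hX4
  obtain ⟨-, -, -, -, m10, -, -, -⟩ := hnum6 X hX6
  set L1 := Real.log X with hL1
  set u₂ := Real.log L1 with hu₂
  set u₃ := Real.log u₂ with hu₃
  set u₄ := Real.log u₃ with hu₄
  set y := L1 / 10 with hy
  have hy0 : 0 < y := by rw [hy]; linarith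
  have hu₃1 : 2 ≤ u₃ := by linarith
  have hu₃0 : 0 < u₃ := by linarith
  have hu₂0 : 0 < u₂ := by linarith
  have hu₄0 : 0 < u₄ := by linarith
  have hu32 : u₃ ≤ u₂ := (Real.log_le_sub_one_of_pos hu₂0).trans (by linarith)
  have hl10 : Real.log 10 ≤ 3 := by
    have : Real.log 10 ≤ Real.log (Real.exp 3) := by
      apply Real.log_le_log (by norm_num)
      have h1 := Real.exp_one_gt_d9
      have h2 : Real.exp 3 = Real.exp 1 * Real.exp 1 * Real.exp 1 := by
        rw [← Real.exp_add, ← Real.exp_add]; norm_num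
      rw [h2]
      nlinarith [mul_pos (Real.exp_pos 1) (Real.exp_pos 1)]
    rwa [Real.log_exp] at this
  have hl100 : 0 ≤ Real.log 10 := Real.log_nonneg (by norm_num)
  have hly : Real.log y = u₂ - Real.log 10 := by
    rw [hy, Real.log_div (by linarith) (by norm_num)]
  have hly1 : u₂ / 2 ≤ Real.log y := by rw [hly]; linarith
  have hly2 : Real.log y ≤ u₂ := by rw [hly]; linarith
  have hly0 : 0 < Real.log y := by linarith
  have hlog2 : Real.log 2 ≤ 1 := by have := Real.log_two_lt_d9; linarith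
  set ℓ₂ := Real.log (Real.log y) with hℓ₂
  have hℓ₂1 : u₃ / 2 ≤ ℓ₂ := by
    have h1 := Real.log_le_log (by linarith) hly1
    rw [Real.log_div hu₂0.ne' (by norm_num)] at h1
    linarith
  have hℓ₂2 : ℓ₂ ≤ u₃ := Real.log_le_log hly0 hly2
  have hℓ₂0 : 0 < ℓ₂ := by linarith
  set ℓ₃ := Real.log ℓ₂ with hℓ₃
  have hℓ₃1 : u₄ / 2 ≤ ℓ₃ := by
    have h1 := Real.log_le_log (by linarith) hℓ₂1
    rw [Real.log_div hu₃0.ne' (by norm_num)] at h1
    linarith
  have hℓ₃2 : ℓ₃ ≤ ℓ₂ := (Real.log_le_sub_one_of_pos hℓ₂0).trans (by linarith)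
  have hℓ₃0 : 0 < ℓ₃ := by linarith
  have hWW : WW y = Real.log y * ℓ₃ / (10 * ℓ₂) := rfl
  have hWW1 : |K| + 2 ≤ WW y := by
    rw [hWW, le_div_iff₀ (by positivity)]
    have hQ0 : 0 ≤ |K| := abs_nonneg K
    have h1 : (u₂ / 2) * 1 ≤ Real.log y * ℓ₃ := by
      apply mul_le_mul hly1 (by linarith) (by norm_num) (by linarith)
    have h2 : (|K| + 2) * (10 * ℓ₂) ≤ (|K| + 2) * (10 * u₃) := by gcongr
    nlinarith
  have hWW2 : WW y ≤ Real.log y := by
    rw [hWW, div_le_iff₀ (by positivity)]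
    nlinarith
  have hWW0 : 2 ≤ WW y := by
    have := abs_nonneg K
    linarith
  set v : ℕ := ⌊Real.exp (WW y)⌋₊ with hv
  have hv2 : 2 ≤ v := by
    rw [hv, Nat.le_floor_iff (Real.exp_pos _).le]
    have := Real.add_one_le_exp (WW y)
    push_cast; linarith
  have hv0 : (0 : ℝ) < v := by exact_mod_cast (by omega : 0 < v)
  have hvle : (v : ℝ) ≤ Real.exp (WW y) := Nat.floor_le (Real.exp_pos _).le
  have hlv : WW y / 2 ≤ Real.log v := by
    have h7 : Real.exp (WW y) < v + 1 := Nat.lt_floor_add_one _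
    have h8 : (2 : ℝ) ≤ v := by exact_mod_cast (by omega : 2 ≤ v)
    have h9 : Real.exp (WW y) ≤ (v : ℝ) ^ 2 := by nlinarith
    have h10 := Real.log_le_log (Real.exp_pos _) h9
    rw [Real.log_exp, Real.log_pow] at h10
    push_cast at h10; linarith
  have hVv : V v ≤ 20 * c₂ * (2 * u₃) / (u₂ / 2 * (u₄ / 2) * 2) := by
    have h1 := (hV v hv2).2
    have h2 := V_pos v
    have h3 : V v * (WW y / 2) ≤ c₂ := by
      refine le_trans ?_ h1
      gcongr
    have h4 : (u₂ / 2) * (u₄ / 2) / (10 * u₃) ≤ WW y := by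
      rw [hWW]
      apply div_le_div₀ (by positivity) _ (by positivity) (by linarith)
      exact mul_le_mul hly1 hℓ₃1 (by linarith) (by linarith)
    have h5 : V v * ((u₂ / 2) * (u₄ / 2) / (10 * u₃) / 2) ≤ c₂ := by
      refine le_trans ?_ h3
      gcongr
    rw [le_div_iff₀ (by positivity)]
    have h6 : V v * (u₂ / 2 * (u₄ / 2) * 2) =
        V v * ((u₂ / 2) * (u₄ / 2) / (10 * u₃) / 2) * (40 * u₃) := by
      field_simp
      ring
    rw [h6]
    calc V v * ((u₂ / 2) * (u₄ / 2) / (10 * u₃) / 2) * (40 * u₃) ≤ c₂ * (40 * u₃) := by gcongr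
      _ = _ := by ring
  have hVv' : V v ≤ 80 * c₂ * u₃ / (u₂ * u₄) := by
    refine hVv.trans (le_of_eq ?_)
    field_simp
    ring
  have hKK := le_abs_self K
  exact ⟨hX0, m7, m1, m2, m3, hu32, m9, by rw [hy]; linarith, m6, by linarith, hWW2, hly1, hℓ₂0,
    hℓ₂2, hVv'⟩

/-- the engine: if few elements of `A` have no medium prime factor -/
theorem engine (D Q : ℕ) (hQ : 0 < Q) : ∃ c : ℝ, 0 < c ∧ ∃ X₀ : ℝ, ∀ X : ℝ, X₀ ≤ X →
    ∀ A : Finset ℤ, (A.card : ℝ) ≤ (Real.log X) ^ 2 →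
    (∀ a ∈ A, |(a : ℝ)| ≤ Real.exp ((Real.log X) ^ D)) →
    (((A.filter (fun a => ∀ p : ℕ, p.Prime → (p : ℝ) ≤ Real.log X / 10 →
      WW (Real.log X / 10) < Real.log p → ¬ (p : ℤ) ∣ a)).card : ℕ) : ℝ) ≤
      c * (Real.log X * (Real.log (Real.log X) * Real.log (Real.log (Real.log (Real.log X))) /
        Real.log (Real.log (Real.log X)))) →
    ∀ r z : ℤ, ∃ n : ℤ, (z : ℝ) + X / 4 < n ∧ (n : ℝ) ≤ z + X ∧
      (∀ q : ℕ, q.Prime → q ∣ Q → (q : ℤ) ∣ n - r) ∧ ∀ a ∈ A, ¬ Prime (n + a) := by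
  obtain ⟨c₀, hc₀, X₁, hass⟩ := assemble D
  obtain ⟨c₂, hc₂, X₂, hfacts⟩ := facts (Q + 1)
  refine ⟨c₀ / (2 ^ Q * c₂), by positivity, max X₁ X₂, ?_⟩
  intro X hX A hA hAb hA0 r z
  have hX1 : X₁ ≤ X := (le_max_left _ _).trans hX
  obtain ⟨hX0, g1, g2, g3, g4, g5, g6, g7, g8, g9, g10, g11, g12, g13, g14⟩ :=
    hfacts X ((le_max_right _ _).trans hX)
  set L1 := Real.log X with hL1
  set u₂ := Real.log L1 with hu₂
  set u₃ := Real.log u₂ with hu₃
  set u₄ := Real.log u₃ with hu₄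
  set y := L1 / 10 with hy
  have hy0 : 0 < y := by rw [hy]; linarith
  have hu₃0 : 0 < u₃ := by linarith
  have hu₂0 : 0 < u₂ := by linarith
  have hu₄0 : 0 < u₄ := by linarith
  set v : ℕ := ⌊Real.exp (WW y)⌋₊ with hv
  have hvle : (v : ℝ) ≤ Real.exp (WW y) := Nat.floor_le (Real.exp_pos _).le
  set A0 := A.filter (fun a => ∀ p : ℕ, p.Prime → (p : ℝ) ≤ y →
      WW y < Real.log p → ¬ (p : ℤ) ∣ a) with hA0def
  obtain ⟨b, hb⟩ := presieve ((Pz v).filter (fun p => ¬ p ∣ Q))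
    (fun p hp => (mem_Pz.1 (mem_filter.1 hp).1).1) A0
  have hprod := prod_any Q v hQ
  set b' : ℕ → ℕ := fun p => if p ∣ Q then (r % (p : ℤ)).toNat else
    if Real.log p ≤ WW y then b p else 0 with hb'
  have hS : (((A.filter (fun a => ∀ p : ℕ, p.Prime → (p : ℝ) ≤ L1 / 10 →
      ¬ (p : ℤ) ∣ (b' p : ℤ) + a)).card : ℕ) : ℝ) ≤ c₀ * L1 := by
    have h1 : (A.filter (fun a => ∀ p : ℕ, p.Prime → (p : ℝ) ≤ L1 / 10 →
        ¬ (p : ℤ) ∣ (b' p : ℤ) + a)) ⊆
        A0.filter (fun a => ∀ p ∈ (Pz v).filter (fun p => ¬ p ∣ Q),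
          ¬ (p : ℤ) ∣ (b p : ℤ) + a) := by
      intro a ha
      rw [mem_filter] at ha
      obtain ⟨haA, hsur⟩ := ha
      rw [mem_filter, hA0def, mem_filter]
      refine ⟨⟨haA, ?_⟩, ?_⟩
      · intro p hp hpy hpW hpa
        apply hsur p hp hpy
        have hpQ : ¬ p ∣ Q := by
          intro hd
          have h2 := Nat.le_of_dvd hQ hd
          have hp0 : (0 : ℝ) < p := by exact_mod_cast hp.pos
          have h3 : Real.log p ≤ Q := by
            have h4 := Real.log_le_sub_one_of_pos hp0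
            have h5 : (p : ℝ) ≤ Q := by exact_mod_cast h2
            linarith
          linarith
        have h4 : b' p = 0 := by
          rw [hb']
          simp only [hpQ, if_false, not_le.2 hpW]
        rw [h4]
        simpa using hpa
      · intro p hp
        rw [mem_filter, mem_Pz] at hp
        obtain ⟨⟨hpp, hpv⟩, hpQ⟩ := hp
        have hp0 : (0 : ℝ) < p := by exact_mod_cast hpp.pos
        have h2 : (p : ℝ) ≤ Real.exp (WW y) := le_trans (by exact_mod_cast hpv) hvle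
        have h3 : Real.log p ≤ WW y := by rwa [Real.log_le_iff_le_exp hp0]
        have h4 : (p : ℝ) ≤ y := by
          refine h2.trans ?_
          calc Real.exp (WW y) ≤ Real.exp (Real.log y) := Real.exp_le_exp.2 g10
            _ = y := Real.exp_log hy0
        have h5 := hsur p hpp h4
        have h6 : b' p = b p := by
          rw [hb']
          simp only [hpQ, if_false, h3, if_true]
        rwa [h6] at h5
    have h2 : (((A.filter (fun a => ∀ p : ℕ, p.Prime → (p : ℝ) ≤ L1 / 10 →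
        ¬ (p : ℤ) ∣ (b' p : ℤ) + a)).card : ℕ) : ℝ) ≤
        ((A0.filter (fun a => ∀ p ∈ (Pz v).filter (fun p => ¬ p ∣ Q),
          ¬ (p : ℤ) ∣ (b p : ℤ) + a)).card : ℝ) := by
      exact_mod_cast card_le_card h1
    refine h2.trans (hb.trans ?_)
    have hVp := (V_pos v).le
    calc (A0.card : ℝ) * ∏ p ∈ (Pz v).filter (fun p => ¬ p ∣ Q), (1 - 1 / (p : ℝ))
        ≤ A0.card * (2 ^ Q * V v) := by gcongr
      _ ≤ (c₀ / (2 ^ Q * c₂) * (L1 * (u₂ * u₄ / u₃))) * (2 ^ Q * (c₂ * u₃ / (u₂ * u₄))) := by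
          gcongr
      _ = c₀ * L1 := by field_simp
  obtain ⟨n, hn1, hn2, hn3, hn4⟩ := hass X hX1 A hA hAb b' hS z
  refine ⟨n, hn1, hn2, ?_, hn4⟩
  intro q hq hqQ
  have hqy : (q : ℝ) ≤ y := by
    have : (q : ℝ) ≤ Q := by exact_mod_cast Nat.le_of_dvd hQ hqQ
    linarith
  have h1 := hn3 q hq hqy
  have h2 : b' q = (r % (q : ℤ)).toNat := by
    rw [hb']
    simp only [hqQ, if_true]
  have hq' : (0 : ℤ) < q := by exact_mod_cast hq.pos
  have h3 : ((b' q : ℕ) : ℤ) = r % (q : ℤ) := by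
    rw [h2, Int.toNat_of_nonneg (Int.emod_nonneg _ hq'.ne')]
  rw [h3] at h1
  have h4 := Int.emod_add_mul_ediv r (q : ℤ)
  obtain ⟨w, hw⟩ := h1
  exact ⟨w - r / (q : ℤ), by linarith⟩

/-- a record gap together with an arbitrary set -/
theorem record_plus (D Q : ℕ) (hQ : 0 < Q) : ∃ c : ℝ, 0 < c ∧ ∃ X₀ : ℝ, ∀ X : ℝ, X₀ ≤ X →
    ∀ B : Finset ℤ,
    (B.card : ℝ) ≤ c * (Real.log X * (Real.log (Real.log X) *
      Real.log (Real.log (Real.log (Real.log X))) / Real.log (Real.log (Real.log X)))) →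
    (∀ a ∈ B, |(a : ℝ)| ≤ Real.exp ((Real.log X) ^ (D + 1))) →
    ∀ r z : ℤ, ∃ n : ℤ, (z : ℝ) + X / 4 < n ∧ (n : ℝ) ≤ z + X ∧
      (∀ q : ℕ, q.Prime → q ∣ Q → (q : ℤ) ∣ n - r) ∧
      (∀ j : ℤ, |(j : ℝ)| ≤ c * FF 1 X → ¬ Prime (n + j)) ∧ ∀ a ∈ B, ¬ Prime (n + a) := by
  obtain ⟨c₀, hc₀, X₁, heng⟩ := engine (D + 1) Q hQ
  obtain ⟨y₀, hmed⟩ := card_med
  set c' : ℝ := min (1 / 10) (c₀ / 1000) with hc'
  have hc'0 : 0 < c' := by positivity
  have hc'1 : c' ≤ 1 / 10 := min_le_left _ _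
  have hc'2 : c' ≤ c₀ / 1000 := min_le_right _ _
  obtain ⟨c₂, hc₂, X₂, hfacts⟩ := facts (2 / c' + 10 * |y₀|)
  refine ⟨c', hc'0, max X₁ X₂, ?_⟩
  intro X hX B hB hBb r z
  have hX1 : X₁ ≤ X := (le_max_left _ _).trans hX
  obtain ⟨hX0, g1, g2, g3, g4, g5, g6, g7, g8, g9, g10, g11, g12, g13, g14⟩ :=
    hfacts X ((le_max_right _ _).trans hX)
  set L1 := Real.log X with hL1
  set u₂ := Real.log L1 with hu₂
  set u₃ := Real.log u₂ with hu₃
  set u₄ := Real.log u₃ with hu₄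
  set y := L1 / 10 with hy
  have hy0 : 0 < y := by rw [hy]; linarith
  have hu₃0 : 0 < u₃ := by linarith
  have hu₂0 : 0 < u₂ := by linarith
  have hu₄0 : 0 < u₄ := by linarith
  set F := c' * FF 1 X with hF
  have hFF : FF 1 X = L1 * (u₂ * u₄ / u₃) * (u₂ / u₃) := by
    unfold FF
    rw [← hL1, ← hu₂, ← hu₃, ← hu₄]
    field_simp
    ring
  have hyab : 0 ≤ |y₀| := abs_nonneg _
  have h2c : 0 < 2 / c' := by positivity
  have hr1 : 2 / c' ≤ u₂ / u₃ := by
    rw [le_div_iff₀ hu₃0]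
    have h1 : 2 / c' * u₃ ≤ (2 / c' + 10 * |y₀|) * u₃ := by
      apply mul_le_mul_of_nonneg_right _ hu₃0.le
      linarith
    linarith
  have hr2 : 1 ≤ u₂ * u₄ / u₃ := by
    rw [le_div_iff₀ hu₃0]
    nlinarith
  have hF0 : 0 ≤ F := by rw [hF, hFF]; positivity
  set L : ℕ := ⌊F⌋₊ with hLdef
  have hLF : (L : ℝ) ≤ F := Nat.floor_le hF0
  have hFlow : 2 * L1 ≤ F := by
    rw [hF, hFF]
    calc 2 * L1 = c' * (L1 * 1 * (2 / c')) := by field_simp
      _ ≤ c' * (L1 * (u₂ * u₄ / u₃) * (u₂ / u₃)) := by gcongr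
  have hyL : y ≤ L := by
    have h2 : F < L + 1 := Nat.lt_floor_add_one _
    rw [hy]
    linarith
  have hF2 : F ≤ L1 * u₂ ^ 2 / 10 := by
    rw [hF, hFF]
    have h1 : u₂ * u₄ / u₃ ≤ u₂ := by
      rw [div_le_iff₀ hu₃0]
      gcongr
    have h2 : u₂ / u₃ ≤ u₂ := div_le_self hu₂0.le (by linarith)
    calc c' * (L1 * (u₂ * u₄ / u₃) * (u₂ / u₃)) ≤ 1 / 10 * (L1 * u₂ * u₂) := by gcongr
      _ = _ := by ring
  have hLy : (L : ℝ) ≤ y * (Real.log y) ^ 4 := by
    refine hLF.trans (hF2.trans ?_)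
    have h1 : (u₂ / 2) ^ 4 ≤ (Real.log y) ^ 4 := by gcongr
    have h2 : u₂ ^ 2 ≤ (u₂ / 2) ^ 4 := by
      have : 0 ≤ u₂ ^ 2 := by positivity
      have e : (u₂ / 2) ^ 4 = u₂ ^ 2 * u₂ ^ 2 / 16 := by ring
      rw [e]
      nlinarith
    have h3 : L1 = 10 * y := by rw [hy]; ring
    calc L1 * u₂ ^ 2 / 10 = y * (u₂ ^ 2) := by rw [h3]; ring
      _ ≤ y * (Real.log y) ^ 4 := by gcongr; linarith
  have hyy : y₀ ≤ y := by
    have := le_abs_self y₀
    rw [hy]
    have h3 : 2 / c' + 10 * |y₀| ≤ L1 / 10 := g7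
    linarith
  have hcm := hmed y hyy L hyL hLy
  have hcard : ((NM y L).card : ℝ) ≤ 120 * c' * (L1 * (u₂ * u₄ / u₃)) := by
    refine hcm.trans ?_
    have h1 : 60 * (L : ℝ) * Real.log (Real.log y) / Real.log y ≤ 60 * F * u₃ / (u₂ / 2) := by
      apply div_le_div₀ (by positivity) _ (by positivity) g11
      gcongr
    refine h1.trans (le_of_eq ?_)
    rw [hF, hFF]
    field_simp
    ring
  set A : Finset ℤ := Icc (-(L : ℤ)) L ∪ B with hA
  have hcA1 : ((Icc (-(L : ℤ)) (L : ℤ)).card : ℝ) = 2 * L + 1 := by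
    rw [Int.card_Icc]
    have : ((L : ℤ) + 1 - -(L : ℤ)).toNat = 2 * L + 1 := by omega
    rw [this]
    push_cast
    ring
  have hBc : (B.card : ℝ) ≤ L1 * u₂ := by
    refine hB.trans ?_
    have h1 : u₂ * u₄ / u₃ ≤ u₂ := by
      rw [div_le_iff₀ hu₃0]
      gcongr
    calc c' * (L1 * (u₂ * u₄ / u₃)) ≤ 1 * (L1 * u₂) := by gcongr; linarith
      _ = _ := one_mul _
  have hu₂cube : u₂ ^ 3 = u₂ * u₂ ^ 2 := by ring
  have hAcard : (A.card : ℝ) ≤ L1 ^ 2 := by
    have h1 : (A.card : ℝ) ≤ (2 * L + 1) + B.card := by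
      rw [← hcA1]
      exact_mod_cast card_union_le _ _
    have h2 : 2 * F + 1 + L1 * u₂ ≤ L1 * u₂ ^ 3 := by
      have h3 : 1 ≤ u₂ ^ 2 := by nlinarith
      have h4 : 1 ≤ L1 * u₂ ^ 2 := by nlinarith
      have h5 : L1 * u₂ ≤ L1 * u₂ ^ 2 := by
        apply mul_le_mul_of_nonneg_left _ (by linarith)
        nlinarith
      have h6 : L1 * u₂ ^ 3 = u₂ * (L1 * u₂ ^ 2) := by ring
      rw [h6]
      nlinarith
    have h7 : L1 * u₂ ^ 3 ≤ L1 * L1 := by gcongr
    have h8 : L1 ^ 2 = L1 * L1 := by ring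
    rw [h8]
    linarith
  have hAb : ∀ a ∈ A, |(a : ℝ)| ≤ Real.exp (L1 ^ (D + 1)) := by
    intro a ha
    rw [hA, mem_union] at ha
    rcases ha with ha | ha
    · rw [mem_Icc] at ha
      have h1 : |(a : ℝ)| ≤ L := by
        rw [abs_le]
        constructor
        · have : ((-(L : ℤ) : ℤ) : ℝ) ≤ a := by exact_mod_cast ha.1
          push_cast at this
          linarith
        · have : (a : ℝ) ≤ ((L : ℤ) : ℝ) := by exact_mod_cast ha.2
          push_cast at this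
          linarith
      have h2 : (L : ℝ) ≤ L1 ^ 2 := by
        have h3 : F ≤ L1 * u₂ ^ 3 := by
          refine hF2.trans ?_
          have h4 : 0 ≤ L1 * u₂ ^ 2 := by positivity
          have h6 : L1 * u₂ ^ 3 = u₂ * (L1 * u₂ ^ 2) := by ring
          rw [h6]
          nlinarith
        have h7 : L1 * u₂ ^ 3 ≤ L1 * L1 := by gcongr
        have h8 : L1 ^ 2 = L1 * L1 := by ring
        rw [h8]
        linarith
      have h3 : L1 ^ 2 ≤ Real.exp L1 := by
        have h4 := Real.pow_div_factorial_le_exp L1 (by linarith) 3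
        have h5 : (Nat.factorial 3 : ℝ) = 6 := by norm_num [Nat.factorial]
        rw [h5] at h4
        refine le_trans ?_ h4
        rw [le_div_iff₀ (by norm_num)]
        have : 0 ≤ L1 ^ 2 := by positivity
        nlinarith
      have h4 : Real.exp L1 ≤ Real.exp (L1 ^ (D + 1)) := by
        apply Real.exp_le_exp.2
        calc L1 = L1 ^ 1 := (pow_one _).symm
          _ ≤ L1 ^ (D + 1) := pow_le_pow_right₀ (by linarith) (by omega)
      linarith
    · exact hBb a ha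
  have hA0 : (((A.filter (fun a => ∀ p : ℕ, p.Prime → (p : ℝ) ≤ y →
      WW y < Real.log p → ¬ (p : ℤ) ∣ a)).card : ℕ) : ℝ) ≤ c₀ * (L1 * (u₂ * u₄ / u₃)) := by
    have h1 : (A.filter (fun a => ∀ p : ℕ, p.Prime → (p : ℝ) ≤ y →
        WW y < Real.log p → ¬ (p : ℤ) ∣ a)) ⊆
        (((NM y L).image (fun m : ℕ => (m : ℤ))) ∪ ((NM y L).image (fun m : ℕ => -(m : ℤ)))) ∪
          ({0} ∪ B) := by
      intro a ha
      rw [mem_filter, hA, mem_union, mem_Icc] at ha
      obtain ⟨ha1, ha2⟩ := ha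
      rw [mem_union, mem_union, mem_union, mem_image, mem_image, mem_singleton]
      rcases ha1 with ha1 | ha1
      · by_cases h0 : a = 0
        · right; left; exact h0
        · left
          have hN : a.natAbs ∈ NM y L := by
            rw [NM, mem_filter, mem_Icc]
            refine ⟨⟨by omega, by omega⟩, fun p hp hpa => ?_⟩
            by_contra hcon
            push Not at hcon
            exact ha2 p hp hcon.1 hcon.2 (Int.natCast_dvd.2 hpa)
          rcases le_total 0 a with h | h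
          · left; exact ⟨a.natAbs, hN, by omega⟩
          · right; exact ⟨a.natAbs, hN, by omega⟩
      · right; right; exact ha1
    have h2 : (A.filter (fun a => ∀ p : ℕ, p.Prime → (p : ℝ) ≤ y →
        WW y < Real.log p → ¬ (p : ℤ) ∣ a)).card ≤
        ((NM y L).card + (NM y L).card) + (1 + B.card) := by
      refine (card_le_card h1).trans ((card_union_le _ _).trans ?_)
      have e1 := card_union_le ((NM y L).image (fun m : ℕ => (m : ℤ)))
        ((NM y L).image (fun m : ℕ => -(m : ℤ)))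
      have e2 : ((NM y L).image (fun m : ℕ => (m : ℤ))).card ≤ (NM y L).card := card_image_le
      have e3 : ((NM y L).image (fun m : ℕ => -(m : ℤ))).card ≤ (NM y L).card := card_image_le
      have e4 := card_union_le ({0} : Finset ℤ) B
      rw [card_singleton] at e4
      omega
    have h3 : (((A.filter (fun a => ∀ p : ℕ, p.Prime → (p : ℝ) ≤ y →
        WW y < Real.log p → ¬ (p : ℤ) ∣ a)).card : ℕ) : ℝ) ≤
        ((NM y L).card + (NM y L).card) + (1 + B.card) := by exact_mod_cast h2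
    have h4 : 1 ≤ c' * (L1 * (u₂ * u₄ / u₃)) := by
      have h5 : 2 / c' + 10 * |y₀| ≤ L1 / 10 := g7
      have h6 : 2 / c' ≤ L1 := by linarith
      have h7 : 2 / c' * 1 ≤ L1 * (u₂ * u₄ / u₃) := by
        apply mul_le_mul h6 hr2 (by norm_num) (by linarith)
      calc (1 : ℝ) ≤ c' * (2 / c' * 1) := by field_simp; norm_num
        _ ≤ _ := by gcongr
    have h5 : 0 ≤ L1 * (u₂ * u₄ / u₃) := by positivity
    have h6 : 242 * (c' * (L1 * (u₂ * u₄ / u₃))) ≤ c₀ * (L1 * (u₂ * u₄ / u₃)) := by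
      nlinarith
    linarith
  obtain ⟨n, hn1, hn2, hn3, hn4⟩ := heng X hX1 A hAcard hAb hA0 r z
  refine ⟨n, hn1, hn2, hn3, ?_, ?_⟩
  · intro j hj
    apply hn4
    rw [hA, mem_union, mem_Icc]
    left
    rw [abs_le] at hj
    have h1 : ⌊F⌋ = (L : ℤ) := (Int.natCast_floor_eq_floor hF0).symm
    constructor
    · have h2 : -j ≤ ⌊F⌋ := Int.le_floor.2 (by push_cast; linarith [hj.1])
      linarith
    · have h2 : j ≤ ⌊F⌋ := Int.le_floor.2 hj.2
      linarith
  · intro a ha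
    apply hn4
    rw [hA, mem_union]
    right
    exact ha

end Pool.Agent.H361R2.PA
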