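import Pool.Agent.H361R2.PA.Sc2

set_option autoImplicit false
set_option maxHeartbeats 4000000

/-! # Finitely many functions simultaneously, at the record scale -/

namespace Pool.Agent.H361R2.PA

open Finset Filter Pool.Agent.H318R2.Cr

open scoped Classical

theorem multi (s D Q : ℕ) (hQ : 0 < Q) : ∃ c : ℝ, 0 < c ∧ c ≤ 1 ∧ ∃ X₀ : ℝ, ∀ X : ℝ, X₀ ≤ X →
    ∀ f : Fin s → ℤ → ℤ, (∀ i, ∀ m : ℤ, m ∣ f i m) →
    (∀ i, ∀ m : ℤ, |(m : ℝ)| ≤ c * FF 1 X → |(f i m : ℝ)| ≤ Real.exp ((Real.log X) ^ D)) →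
    ∀ r z : ℤ, ∃ n : ℤ, (z : ℝ) + X / 4 < n ∧ (n : ℝ) ≤ z + X ∧
      (∀ q : ℕ, q.Prime → q ∣ Q → (q : ℤ) ∣ n - r) ∧
      ∀ i, ∀ m : ℤ, |(m : ℝ)| ≤ c * FF 1 X → ¬ Prime (n + f i m) := by
  obtain ⟨c₀, hc₀, X₁, heng⟩ := engine D Q hQ
  obtain ⟨y₀, hmed⟩ := card_med
  set c' : ℝ := min (1 / 10) (c₀ / (1000 * (s + 1))) with hc'
  have hc'0 : 0 < c' := by positivity
  have hc'1 : c' ≤ 1 / 10 := min_le_left _ _
  have hc'2 : c' ≤ c₀ / (1000 * (s + 1)) := min_le_right _ _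
  obtain ⟨c₂, hc₂, X₂, hfacts⟩ := facts (2 / c' + 10 * |y₀| + 3 * s)
  refine ⟨c', hc'0, by linarith, max X₁ X₂, ?_⟩
  intro X hX f hf hfb r z
  have hX1 : X₁ ≤ X := (le_max_left _ _).trans hX
  obtain ⟨hX0, g1, g2, g3, g4, g5, g6, g7, g8, g9, g10, g11, g12, g13, g14⟩ :=
    hfacts X ((le_max_right _ _).trans hX)
  set L1 := Real.log X with hL1
  set u₂ := Real.log L1 with hu₂
  set u₃ := Real.log u₂ with hu₃
  set u₄ := Real.log u₃ with hu₄
  set y := L1 / 10 with hy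
  have hy0 : 0 < y := by rw [hy]; linarith
  have hu₃0 : 0 < u₃ := by linarith
  have hu₂0 : 0 < u₂ := by linarith
  have hu₄0 : 0 < u₄ := by linarith
  set F := c' * FF 1 X with hF
  have hFF : FF 1 X = L1 * (u₂ * u₄ / u₃) * (u₂ / u₃) := by
    unfold FF
    rw [← hL1, ← hu₂, ← hu₃, ← hu₄]
    field_simp
    ring
  have hyab : 0 ≤ |y₀| := abs_nonneg _
  have hs0 : (0 : ℝ) ≤ s := Nat.cast_nonneg s
  have h2c : 0 < 2 / c' := by positivity
  have hr1 : 2 / c' ≤ u₂ / u₃ := by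
    rw [le_div_iff₀ hu₃0]
    have h1 : 2 / c' * u₃ ≤ (2 / c' + 10 * |y₀| + 3 * s) * u₃ := by
      apply mul_le_mul_of_nonneg_right _ hu₃0.le
      linarith
    linarith
  have hr2 : 1 ≤ u₂ * u₄ / u₃ := by
    rw [le_div_iff₀ hu₃0]
    nlinarith
  have hF0 : 0 ≤ F := by rw [hF, hFF]; positivity
  set L : ℕ := ⌊F⌋₊ with hLdef
  have hLF : (L : ℝ) ≤ F := Nat.floor_le hF0
  have hFlow : 2 * L1 ≤ F := by
    rw [hF, hFF]
    calc 2 * L1 = c' * (L1 * 1 * (2 / c')) := by field_simp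
      _ ≤ c' * (L1 * (u₂ * u₄ / u₃) * (u₂ / u₃)) := by gcongr
  have hyL : y ≤ L := by
    have h2 : F < L + 1 := Nat.lt_floor_add_one _
    rw [hy]
    linarith
  have hF2 : F ≤ L1 * u₂ ^ 2 / 10 := by
    rw [hF, hFF]
    have h1 : u₂ * u₄ / u₃ ≤ u₂ := by
      rw [div_le_iff₀ hu₃0]
      gcongr
    have h2 : u₂ / u₃ ≤ u₂ := div_le_self hu₂0.le (by linarith)
    calc c' * (L1 * (u₂ * u₄ / u₃) * (u₂ / u₃)) ≤ 1 / 10 * (L1 * u₂ * u₂) := by gcongr
      _ = _ := by ring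
  have hLy : (L : ℝ) ≤ y * (Real.log y) ^ 4 := by
    refine hLF.trans (hF2.trans ?_)
    have h1 : (u₂ / 2) ^ 4 ≤ (Real.log y) ^ 4 := by gcongr
    have h2 : u₂ ^ 2 ≤ (u₂ / 2) ^ 4 := by
      have : 0 ≤ u₂ ^ 2 := by positivity
      have e : (u₂ / 2) ^ 4 = u₂ ^ 2 * u₂ ^ 2 / 16 := by ring
      rw [e]
      nlinarith
    have h3 : L1 = 10 * y := by rw [hy]; ring
    calc L1 * u₂ ^ 2 / 10 = y * (u₂ ^ 2) := by rw [h3]; ring
      _ ≤ y * (Real.log y) ^ 4 := by gcongr; linarith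
  have g7' : 2 / c' + 10 * |y₀| + 3 * s ≤ L1 / 10 := g7
  have hyy : y₀ ≤ y := by
    have := le_abs_self y₀
    rw [hy]
    linarith
  have hcm := hmed y hyy L hyL hLy
  have hcard : ((NM y L).card : ℝ) ≤ 120 * c' * (L1 * (u₂ * u₄ / u₃)) := by
    refine hcm.trans ?_
    have h1 : 60 * (L : ℝ) * Real.log (Real.log y) / Real.log y ≤ 60 * F * u₃ / (u₂ / 2) := by
      apply div_le_div₀ (by positivity) _ (by positivity) g11
      gcongr
    refine h1.trans (le_of_eq ?_)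
    rw [hF, hFF]
    field_simp
    ring
  have hcI : ((Icc (-(L : ℤ)) (L : ℤ)).card) = 2 * L + 1 := by
    rw [Int.card_Icc]
    omega
  set A : Finset ℤ := Finset.univ.biUnion (fun i : Fin s => (Icc (-(L : ℤ)) L).image (f i)) with hA
  have hAcard : (A.card : ℝ) ≤ L1 ^ 2 := by
    have h1 : A.card ≤ s * (2 * L + 1) := by
      rw [hA]
      refine card_biUnion_le.trans ?_
      calc ∑ i : Fin s, ((Icc (-(L : ℤ)) L).image (f i)).card
          ≤ ∑ i : Fin s, (2 * L + 1) := by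
            apply sum_le_sum
            intro i _
            rw [← hcI]
            exact card_image_le
        _ = s * (2 * L + 1) := by simp
    have h2 : (A.card : ℝ) ≤ s * (2 * L + 1) := by exact_mod_cast h1
    have h3 : (2 * L + 1 : ℝ) ≤ 3 * F := by
      have : 1 ≤ F := by linarith
      linarith
    have h4 : (s : ℝ) * (2 * L + 1) ≤ s * (3 * F) := by gcongr
    have h5 : 3 * (s : ℝ) ≤ u₂ := by
      have h6 : (2 / c' + 10 * |y₀| + 3 * s) * u₃ ≤ u₂ := g6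
      have h7 : 3 * (s : ℝ) * 1 ≤ (2 / c' + 10 * |y₀| + 3 * s) * u₃ := by
        apply mul_le_mul (by linarith) (by linarith) (by norm_num) (by positivity)
      linarith
    have h6 : (s : ℝ) * (3 * F) ≤ u₂ * (L1 * u₂ ^ 2) := by
      calc (s : ℝ) * (3 * F) = (3 * s) * F := by ring
        _ ≤ u₂ * (L1 * u₂ ^ 2 / 10) := by gcongr
        _ ≤ u₂ * (L1 * u₂ ^ 2) := by
          gcongr
          have : 0 ≤ L1 * u₂ ^ 2 := by positivity
          linarith
    have h7 : L1 * u₂ ^ 3 ≤ L1 * L1 := by gcongr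
    have h8 : L1 ^ 2 = L1 * L1 := by ring
    have h9 : u₂ * (L1 * u₂ ^ 2) = L1 * u₂ ^ 3 := by ring
    rw [h8]
    linarith
  have hfl : ⌊F⌋ = (L : ℤ) := (Int.natCast_floor_eq_floor hF0).symm
  have hmem : ∀ m : ℤ, m ∈ Icc (-(L : ℤ)) (L : ℤ) ↔ |(m : ℝ)| ≤ F := by
    intro m
    rw [mem_Icc, abs_le]
    constructor
    · rintro ⟨h1, h2⟩
      constructor
      · have : ((-(L : ℤ) : ℤ) : ℝ) ≤ m := by exact_mod_cast h1
        push_cast at this
        linarith
      · have : (m : ℝ) ≤ ((L : ℤ) : ℝ) := by exact_mod_cast h2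
        push_cast at this
        linarith
    · rintro ⟨h1, h2⟩
      constructor
      · have h3 : -m ≤ ⌊F⌋ := Int.le_floor.2 (by push_cast; linarith)
        linarith
      · have h3 : m ≤ ⌊F⌋ := Int.le_floor.2 h2
        linarith
  have hAb : ∀ a ∈ A, |(a : ℝ)| ≤ Real.exp (L1 ^ D) := by
    intro a ha
    rw [hA, mem_biUnion] at ha
    obtain ⟨i, _, ha⟩ := ha
    rw [mem_image] at ha
    obtain ⟨m, hm, rfl⟩ := ha
    exact hfb i m ((hmem m).1 hm)
  have hA0 : (((A.filter (fun a => ∀ p : ℕ, p.Prime → (p : ℝ) ≤ y →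
      WW y < Real.log p → ¬ (p : ℤ) ∣ a)).card : ℕ) : ℝ) ≤ c₀ * (L1 * (u₂ * u₄ / u₃)) := by
    have h1 : (A.filter (fun a => ∀ p : ℕ, p.Prime → (p : ℝ) ≤ y →
        WW y < Real.log p → ¬ (p : ℤ) ∣ a)) ⊆
        Finset.univ.biUnion (fun i : Fin s => ((((NM y L).image (fun m : ℕ => (m : ℤ))) ∪
          ((NM y L).image (fun m : ℕ => -(m : ℤ)))) ∪ {0}).image (f i)) := by
      intro a ha
      rw [mem_filter, hA, mem_biUnion] at ha
      obtain ⟨⟨i, _, ha1⟩, ha2⟩ := ha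
      rw [mem_image] at ha1
      obtain ⟨m, hm, rfl⟩ := ha1
      rw [mem_biUnion]
      refine ⟨i, mem_univ _, ?_⟩
      rw [mem_image]
      refine ⟨m, ?_, rfl⟩
      rw [mem_union, mem_union, mem_image, mem_image, mem_singleton]
      rw [mem_Icc] at hm
      by_cases h0 : m = 0
      · right; exact h0
      · left
        have hN : m.natAbs ∈ NM y L := by
          rw [NM, mem_filter, mem_Icc]
          refine ⟨⟨by omega, by omega⟩, fun p hp hpa => ?_⟩
          by_contra hcon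
          push Not at hcon
          exact ha2 p hp hcon.1 hcon.2 ((Int.natCast_dvd.2 hpa).trans (hf i m))
        rcases le_total 0 m with h | h
        · left; exact ⟨m.natAbs, hN, by omega⟩
        · right; exact ⟨m.natAbs, hN, by omega⟩
    have h2 : (A.filter (fun a => ∀ p : ℕ, p.Prime → (p : ℝ) ≤ y →
        WW y < Real.log p → ¬ (p : ℤ) ∣ a)).card ≤ s * (((NM y L).card + (NM y L).card) + 1) := by
      refine (card_le_card h1).trans (card_biUnion_le.trans ?_)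
      have e0 : ∀ i : Fin s, (((((NM y L).image (fun m : ℕ => (m : ℤ))) ∪
          ((NM y L).image (fun m : ℕ => -(m : ℤ)))) ∪ {0}).image (f i)).card ≤
          ((NM y L).card + (NM y L).card) + 1 := by
        intro i
        refine card_image_le.trans ((card_union_le _ _).trans ?_)
        have e1 := card_union_le ((NM y L).image (fun m : ℕ => (m : ℤ)))
          ((NM y L).image (fun m : ℕ => -(m : ℤ)))
        have e2 : ((NM y L).image (fun m : ℕ => (m : ℤ))).card ≤ (NM y L).card := card_image_le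
        have e3 : ((NM y L).image (fun m : ℕ => -(m : ℤ))).card ≤ (NM y L).card := card_image_le
        rw [card_singleton]
        omega
      calc _ ≤ ∑ i : Fin s, (((NM y L).card + (NM y L).card) + 1) := sum_le_sum fun i _ => e0 i
        _ = _ := by simp
    have h3 : (((A.filter (fun a => ∀ p : ℕ, p.Prime → (p : ℝ) ≤ y →
        WW y < Real.log p → ¬ (p : ℤ) ∣ a)).card : ℕ) : ℝ) ≤
        s * (((NM y L).card + (NM y L).card) + 1) := by exact_mod_cast h2
    have h4 : 1 ≤ c' * (L1 * (u₂ * u₄ / u₃)) := by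
      have h6 : 2 / c' ≤ L1 := by linarith
      have h7 : 2 / c' * 1 ≤ L1 * (u₂ * u₄ / u₃) := by
        apply mul_le_mul h6 hr2 (by norm_num) (by linarith)
      calc (1 : ℝ) ≤ c' * (2 / c' * 1) := by field_simp; norm_num
        _ ≤ _ := by gcongr
    have h5 : 0 ≤ L1 * (u₂ * u₄ / u₃) := by positivity
    have h8 : ((NM y L).card + (NM y L).card : ℝ) + 1 ≤ 241 * (c' * (L1 * (u₂ * u₄ / u₃))) := by
      linarith
    have h9 : (s : ℝ) * (((NM y L).card + (NM y L).card) + 1) ≤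
        s * (241 * (c' * (L1 * (u₂ * u₄ / u₃)))) := by gcongr
    have h10 : (s : ℝ) * (241 * c') ≤ c₀ := by
      have h11 : (s : ℝ) * (241 * c') ≤ s * (241 * (c₀ / (1000 * (s + 1)))) := by gcongr
      refine h11.trans ?_
      have h12 : (s : ℝ) * (241 * (c₀ / (1000 * (s + 1)))) = c₀ * ((241 * s) / (1000 * (s + 1))) := by
        field_simp
      rw [h12]
      have h13 : (241 * (s : ℝ)) / (1000 * (s + 1)) ≤ 1 := by
        rw [div_le_one (by positivity)]
        nlinarith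
      calc c₀ * ((241 * s) / (1000 * (s + 1))) ≤ c₀ * 1 := by gcongr
        _ = c₀ := mul_one _
    calc _ ≤ _ := h3
      _ ≤ _ := h9
      _ = (s * (241 * c')) * (L1 * (u₂ * u₄ / u₃)) := by ring
      _ ≤ _ := by gcongr
  obtain ⟨n, hn1, hn2, hn3, hn4⟩ := heng X hX1 A hAcard hAb hA0 r z
  refine ⟨n, hn1, hn2, hn3, ?_⟩
  intro i m hm
  apply hn4
  rw [hA, mem_biUnion]
  exact ⟨i, mem_univ _, mem_image_of_mem _ ((hmem m).2 hm)⟩

end Pool.Agent.H361R2.PA
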