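import Pool.Agent.H361R2.PA.Sc3
import Pool.Agent.H474R2.PG.MertensF

set_option autoImplicit false
set_option maxHeartbeats 4000000

/-! # Powers: `a + s m^e` -/

namespace Pool.Agent.H361R2.PA

open Finset Filter Pool.Agent.H318R2.Cr Pool.Agent.H474R2.PG

open scoped Classical

/-- number of `e`-th roots of unity modulo `p` -/
noncomputable def GG (e p : ℕ) : ℕ := ((range p).filter (fun a : ℕ => ((a : ZMod p)) ^ e = 1)).card

theorem GG_le (e p : ℕ) (he : 0 < e) (hp : p.Prime) : GG e p ≤ e := by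
  haveI := Fact.mk hp
  have h1 : GG e p ≤ (Polynomial.nthRoots e (1 : ZMod p)).toFinset.card := by
    apply card_le_card_of_injOn (fun a : ℕ => (a : ZMod p))
    · intro a ha
      rw [mem_coe, mem_filter] at ha
      rw [mem_coe, Multiset.mem_toFinset, Polynomial.mem_nthRoots he]
      exact ha.2
    · intro a ha b hb hab
      rw [mem_coe, mem_filter, mem_range] at ha hb
      have h2 : ((a : ℕ) : ZMod p) = ((b : ℕ) : ZMod p) := hab
      rw [ZMod.natCast_eq_natCast_iff] at h2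
      have h3 : a % p = b % p := h2
      rwa [Nat.mod_eq_of_lt ha.1, Nat.mod_eq_of_lt hb.1] at h3
  exact h1.trans ((Multiset.toFinset_card_le _).trans (Polynomial.card_nthRoots e 1))

theorem GG_pos (e p : ℕ) (hp : p.Prime) : 1 ≤ GG e p := by
  unfold GG
  rw [Nat.one_le_iff_ne_zero, ← Nat.pos_iff_ne_zero, card_pos]
  exact ⟨1, mem_filter.2 ⟨mem_range.2 hp.one_lt, by simp⟩⟩

theorem GG_lt (e p : ℕ) (he : 0 < e) (hp : p.Prime) : GG e p ≤ p - 1 := by
  have h1 : (range p).filter (fun a : ℕ => ((a : ZMod p)) ^ e = 1) ⊆ (range p).erase 0 := by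
    intro a ha
    rw [mem_filter] at ha
    rw [mem_erase]
    refine ⟨?_, ha.1⟩
    rintro rfl
    have h2 := ha.2
    haveI := Fact.mk hp
    simp [he.ne'] at h2
  have h2 := card_le_card h1
  rw [card_erase_of_mem (mem_range.2 hp.pos), card_range] at h2
  exact h2

/-- fibres -/
theorem fib_ge (e p m : ℕ) (he : e ≠ 0) (hp : p.Prime) (hm : ¬ p ∣ m) :
    GG e p ≤ (((range p).erase 0).filter (fun t : ℕ => (t : ZMod p) ^ e = (m : ZMod p) ^ e)).card := by
  haveI := Fact.mk hp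
  have hm0 : (m : ZMod p) ≠ 0 := by
    intro h
    exact hm ((ZMod.natCast_eq_zero_iff m p).1 h)
  unfold GG
  apply card_le_card_of_injOn (fun a : ℕ => (a * m) % p)
  · intro a ha
    rw [mem_coe, mem_filter, mem_range] at ha
    have ha0 : (a : ZMod p) ≠ 0 := by
      intro h
      have := ha.2
      rw [h, zero_pow he] at this
      exact zero_ne_one this
    rw [mem_coe, mem_filter, mem_erase, mem_range]
    have h1 : (((a * m) % p : ℕ) : ZMod p) = a * m := by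
      rw [ZMod.natCast_mod]; push_cast; ring
    refine ⟨⟨?_, Nat.mod_lt _ hp.pos⟩, ?_⟩
    · intro h
      have h' : (a * m) % p = 0 := h
      rw [h'] at h1
      push_cast at h1
      exact mul_ne_zero ha0 hm0 h1.symm
    · rw [h1, mul_pow, ha.2, one_mul]
  · intro a ha b hb hab
    rw [mem_coe, mem_filter, mem_range] at ha hb
    have h2 : (((a * m) % p : ℕ) : ZMod p) = (((b * m) % p : ℕ) : ZMod p) := by
      have : (a * m) % p = (b * m) % p := hab
      rw [this]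
    rw [ZMod.natCast_mod, ZMod.natCast_mod] at h2
    push_cast at h2
    have h3 := mul_right_cancel₀ hm0 h2
    rw [ZMod.natCast_eq_natCast_iff] at h3
    have h4 : a % p = b % p := h3
    rwa [Nat.mod_eq_of_lt ha.1, Nat.mod_eq_of_lt hb.1] at h4

/-- the weight -/
noncomputable def wp (e p : ℕ) : ℝ := 1 - (GG e p : ℝ) * (p - GG e p) / (p * (p - 1))

theorem wp_nonneg (e p : ℕ) (he : 0 < e) (hp : p.Prime) : 0 ≤ wp e p := by
  have h1 : (1 : ℝ) ≤ GG e p := by exact_mod_cast GG_pos e p hp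
  have h2 : (GG e p : ℝ) ≤ (p : ℝ) - 1 := by
    have := GG_lt e p he hp
    have h3 : (GG e p : ℝ) ≤ ((p - 1 : ℕ) : ℝ) := by exact_mod_cast this
    rwa [Nat.cast_sub hp.pos, Nat.cast_one] at h3
  have hp2 : (2 : ℝ) ≤ p := by exact_mod_cast hp.two_le
  unfold wp
  have h3 : (GG e p : ℝ) * (p - GG e p) / (p * (p - 1)) ≤ 1 := by
    rw [div_le_one (by nlinarith)]
    nlinarith
  linarith

/-- one prime -/
theorem one_pow (e : ℕ) (he : 0 < e) (s : ℤ) (p : ℕ) (hp : p.Prime) (R : Finset ℕ) : ∃ c : ℕ,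
    ((R.filter (fun m : ℕ => ¬ (p : ℤ) ∣ (c : ℤ) + s * (m : ℤ) ^ e)).card : ℝ) ≤
      R.card * wp e p := by
  haveI := Fact.mk hp
  have hg1 : (1 : ℝ) ≤ GG e p := by exact_mod_cast GG_pos e p hp
  have hg2 : (GG e p : ℝ) ≤ (p : ℝ) - 1 := by
    have := GG_lt e p he hp
    have h3 : (GG e p : ℝ) ≤ ((p - 1 : ℕ) : ℝ) := by exact_mod_cast this
    rwa [Nat.cast_sub hp.pos, Nat.cast_one] at h3
  set g : ℝ := (GG e p : ℝ) with hg
  have hp2 : (2 : ℝ) ≤ p := by exact_mod_cast hp.two_le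
  have hp0 : (0 : ℝ) < p := by linarith
  have hp1 : (0 : ℝ) < (p : ℝ) - 1 := by linarith
  set R0 := R.filter (fun m => p ∣ m) with hR0
  set R1 := R.filter (fun m => ¬ p ∣ m) with hR1
  have hsum : (R0.card : ℝ) + R1.card = R.card := by
    have := card_filter_add_card_filter_not (s := R) (fun m => p ∣ m)
    exact_mod_cast this
  have hRn : (0 : ℝ) ≤ R.card := Nat.cast_nonneg _
  have hR1n : (0 : ℝ) ≤ R1.card := Nat.cast_nonneg _
  by_cases hcase : g / (p : ℝ) * R.card ≤ R0.card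
  · refine ⟨0, ?_⟩
    have h1 : (R.filter (fun m : ℕ => ¬ (p : ℤ) ∣ ((0 : ℕ) : ℤ) + s * (m : ℤ) ^ e)) ⊆ R1 := by
      intro m hm
      rw [mem_filter] at hm
      rw [hR1, mem_filter]
      refine ⟨hm.1, fun hd => hm.2 ?_⟩
      have h2 : (p : ℤ) ∣ (m : ℤ) ^ e := Dvd.dvd.pow (Int.natCast_dvd_natCast.2 hd) he.ne'
      simpa using h2.mul_left s
    have h2 : ((R.filter (fun m : ℕ => ¬ (p : ℤ) ∣ ((0 : ℕ) : ℤ) + s * (m : ℤ) ^ e)).card : ℝ) ≤
        R1.card := by exact_mod_cast card_le_card h1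
    refine h2.trans ?_
    unfold wp
    rw [← hg]
    have h3 : g * (p - g) / (p * (p - 1)) ≤ g / p := by
      rw [div_le_div_iff₀ (by positivity) hp0]
      nlinarith [mul_nonneg (mul_nonneg (by linarith : (0:ℝ) ≤ g) hp0.le) (by linarith : (0:ℝ) ≤ g - 1)]
    have h4 : (R.card : ℝ) * (g * (p - g) / (p * (p - 1))) ≤ R.card * (g / p) := by gcongr
    nlinarith
  · push Not at hcase
    have hkey : ∃ t ∈ (range p).erase 0, (R1.card : ℝ) * g / (p - 1) ≤
        ((R1.filter (fun m : ℕ => (t : ZMod p) ^ e = (m : ZMod p) ^ e)).card : ℝ) := by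
      by_contra hcon
      push Not at hcon
      have hne : ((range p).erase 0).Nonempty :=
        ⟨1, mem_erase.2 ⟨one_ne_zero, mem_range.2 hp.one_lt⟩⟩
      have h1 := sum_lt_sum_of_nonempty hne hcon
      rw [sum_const, card_erase_of_mem (mem_range.2 hp.pos), card_range, nsmul_eq_mul,
        Nat.cast_sub hp.pos, Nat.cast_one] at h1
      have h2 : ∑ t ∈ (range p).erase 0,
          ((R1.filter (fun m : ℕ => (t : ZMod p) ^ e = (m : ZMod p) ^ e)).card : ℝ) =
          ∑ m ∈ R1, ((((range p).erase 0).filter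
            (fun t : ℕ => (t : ZMod p) ^ e = (m : ZMod p) ^ e)).card : ℝ) := by
        simp_rw [card_filter]
        push_cast
        rw [sum_comm]
      rw [h2] at h1
      have h3 : ∑ m ∈ R1, g ≤ ∑ m ∈ R1, ((((range p).erase 0).filter
            (fun t : ℕ => (t : ZMod p) ^ e = (m : ZMod p) ^ e)).card : ℝ) := by
        apply sum_le_sum
        intro m hm
        rw [hR1, mem_filter] at hm
        rw [hg]
        exact_mod_cast fib_ge e p m he.ne' hp hm.2
      rw [sum_const, nsmul_eq_mul] at h3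
      have h4 : ((p : ℝ) - 1) * ((R1.card : ℝ) * g / (p - 1)) = R1.card * g := by
        field_simp
      linarith
    obtain ⟨t, ht, hcs⟩ := hkey
    have hp' : (0 : ℤ) < p := by exact_mod_cast hp.pos
    refine ⟨((-(s * (t : ℤ) ^ e)) % (p : ℤ)).toNat, ?_⟩
    have hcc : ((((-(s * (t : ℤ) ^ e)) % (p : ℤ)).toNat : ℕ) : ℤ) = (-(s * (t : ℤ) ^ e)) % (p : ℤ) :=
      Int.toNat_of_nonneg (Int.emod_nonneg _ hp'.ne')
    rw [hcc]
    have h1 : R1.filter (fun m : ℕ => (t : ZMod p) ^ e = (m : ZMod p) ^ e) ⊆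
        R.filter (fun m : ℕ => (p : ℤ) ∣ (-(s * (t : ℤ) ^ e)) % (p : ℤ) + s * (m : ℤ) ^ e) := by
      intro m hm
      rw [mem_filter, hR1, mem_filter] at hm
      rw [mem_filter]
      refine ⟨hm.1.1, ?_⟩
      have h2 : (p : ℤ) ∣ (m : ℤ) ^ e - (t : ℤ) ^ e := by
        rw [← ZMod.intCast_zmod_eq_zero_iff_dvd]
        push_cast
        rw [hm.2, sub_self]
      have h4 := Int.emod_add_mul_ediv (-(s * (t : ℤ) ^ e)) (p : ℤ)
      obtain ⟨u, hu⟩ := h2
      refine ⟨s * u - (-(s * (t : ℤ) ^ e)) / (p : ℤ), ?_⟩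
      have h5 : s * (m : ℤ) ^ e = s * (t : ℤ) ^ e + p * (s * u) := by
        have : (m : ℤ) ^ e = (t : ℤ) ^ e + p * u := by linarith
        rw [this]; ring
      rw [h5]
      linarith
    have h2 : ((R1.filter (fun m : ℕ => (t : ZMod p) ^ e = (m : ZMod p) ^ e)).card : ℝ) ≤
        ((R.filter (fun m : ℕ => (p : ℤ) ∣ (-(s * (t : ℤ) ^ e)) % (p : ℤ) + s * (m : ℤ) ^ e)).card : ℝ) := by
      exact_mod_cast card_le_card h1
    have h3 : ((R.filter (fun m : ℕ => (p : ℤ) ∣ (-(s * (t : ℤ) ^ e)) % (p : ℤ) + s * (m : ℤ) ^ e)).card : ℝ) +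
        ((R.filter (fun m : ℕ => ¬ (p : ℤ) ∣ (-(s * (t : ℤ) ^ e)) % (p : ℤ) + s * (m : ℤ) ^ e)).card : ℝ)
          = R.card := by
      exact_mod_cast card_filter_add_card_filter_not (s := R) _
    have h4 : (1 - g / (p : ℝ)) * R.card ≤ R1.card := by nlinarith
    have h5 : (1 - g / (p : ℝ)) * R.card * g / (p - 1) ≤ (R1.card : ℝ) * g / (p - 1) := by
      gcongr
    have h6 : (R.card : ℝ) * wp e p = R.card - (1 - g / (p : ℝ)) * R.card * g / (p - 1) := by
      unfold wp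
      rw [← hg]
      field_simp
    rw [h6]
    linarith

/-- all primes of `S` -/
theorem greedy_pow (e : ℕ) (he : 0 < e) (s : ℤ) (S : Finset ℕ) (hS : ∀ p ∈ S, p.Prime) :
    ∀ R : Finset ℕ, ∃ b : ℕ → ℕ,
    ((R.filter (fun m : ℕ => ∀ p ∈ S, ¬ (p : ℤ) ∣ (b p : ℤ) + s * (m : ℤ) ^ e)).card : ℝ) ≤
      R.card * ∏ p ∈ S, wp e p := by
  induction S using Finset.induction_on with
  | empty => intro A; exact ⟨fun _ => 0, by simp⟩
  | insert p S hpS ih =>
    intro A
    have hp := hS p (mem_insert_self _ _)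
    obtain ⟨c, hc⟩ := one_pow e he s p hp A
    obtain ⟨b, hb⟩ := ih (fun q hq => hS q (mem_insert_of_mem hq))
      (A.filter (fun m : ℕ => ¬ (p : ℤ) ∣ (c : ℤ) + s * (m : ℤ) ^ e))
    refine ⟨Function.update b p c, ?_⟩
    have h8 : A.filter (fun m : ℕ => ∀ q ∈ insert p S,
          ¬ (q : ℤ) ∣ (Function.update b p c q : ℤ) + s * (m : ℤ) ^ e) ⊆
        (A.filter (fun m : ℕ => ¬ (p : ℤ) ∣ (c : ℤ) + s * (m : ℤ) ^ e)).filter
          (fun m : ℕ => ∀ q ∈ S, ¬ (q : ℤ) ∣ (b q : ℤ) + s * (m : ℤ) ^ e) := by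
      intro x hx
      rw [mem_filter] at hx
      rw [mem_filter, mem_filter]
      refine ⟨⟨hx.1, ?_⟩, ?_⟩
      · have := hx.2 p (mem_insert_self _ _)
        rwa [Function.update_self] at this
      · intro q hq
        have h9 : q ≠ p := fun h => hpS (h ▸ hq)
        have := hx.2 q (mem_insert_of_mem hq)
        rwa [Function.update_of_ne h9] at this
    have h0 : 0 ≤ ∏ q ∈ S, wp e q := prod_nonneg fun q hq =>
      wp_nonneg e q he (hS q (mem_insert_of_mem hq))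
    rw [prod_insert hpS]
    calc _ ≤ (((A.filter (fun m : ℕ => ¬ (p : ℤ) ∣ (c : ℤ) + s * (m : ℤ) ^ e)).filter
          (fun m : ℕ => ∀ q ∈ S, ¬ (q : ℤ) ∣ (b q : ℤ) + s * (m : ℤ) ^ e)).card : ℝ) := by
            exact_mod_cast card_le_card h8
      _ ≤ _ := hb
      _ ≤ (A.card * wp e p) * ∏ q ∈ S, wp e q := by gcongr
      _ = _ := by ring

/-- the roots of unity of exact order `d` -/
theorem sum_rho_le (e p : ℕ) (he : 0 < e) (hp : p.Prime) (hpe : ¬ p ∣ e) :
    ∑ d ∈ e.divisors, rho (Polynomial.cyclotomic d ℤ) p ≤ GG e p := by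
  haveI := Fact.mk hp
  have hroot : ∀ d ∈ e.divisors, ∀ a : ℕ,
      (p : ℤ) ∣ (Polynomial.cyclotomic d ℤ).eval (a : ℤ) → IsPrimitiveRoot ((a : ZMod p)) d := by
    intro d hd a ha
    have hd' := (Nat.mem_divisors.1 hd).1
    have hd0 : ((d : ℕ) : ZMod p) ≠ 0 := by
      intro h
      exact hpe (((ZMod.natCast_eq_zero_iff d p).1 h).trans hd')
    haveI : NeZero ((d : ℕ) : ZMod p) := ⟨hd0⟩
    rw [← Polynomial.isRoot_cyclotomic_iff]
    rw [Polynomial.IsRoot.def]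
    have h1 : (((Polynomial.cyclotomic d ℤ).eval (a : ℤ) : ℤ) : ZMod p) = 0 :=
      (ZMod.intCast_zmod_eq_zero_iff_dvd _ _).2 ha
    have h2 : Polynomial.cyclotomic d (ZMod p) =
        (Polynomial.cyclotomic d ℤ).map (Int.castRingHom (ZMod p)) :=
      (Polynomial.map_cyclotomic d (Int.castRingHom (ZMod p))).symm
    rw [h2]
    have h3 : ((a : ℕ) : ZMod p) = (Int.castRingHom (ZMod p)) (a : ℤ) := by simp
    rw [h3, Polynomial.eval_map_apply]
    exact h1
  unfold rho GG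
  rw [← card_biUnion]
  · apply card_le_card
    intro a ha
    rw [mem_biUnion] at ha
    obtain ⟨d, hd, ha⟩ := ha
    rw [mem_filter] at ha ⊢
    refine ⟨ha.1, ?_⟩
    have h1 := hroot d hd a ha.2
    obtain ⟨k, hk⟩ := (Nat.mem_divisors.1 hd).1
    rw [hk, pow_mul, h1.pow_eq_one, _root_.one_pow]
  · intro d hd d' hd' hne
    apply Finset.disjoint_left.2
    intro a ha ha'
    rw [mem_filter] at ha ha'
    exact hne ((hroot d hd a ha.2).unique (hroot d' hd' a ha'.2))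

theorem sum_GG (e : ℕ) (he : 0 < e) : ∃ C : ℝ, ∀ w : ℝ, 3 ≤ w →
    (e.divisors.card : ℝ) * Real.log (Real.log w) - C ≤ ∑ p ∈ PR w, (GG e p : ℝ) / p := by
  have hM : ∀ d ∈ e.divisors, ∃ C : ℝ, ∀ w : ℝ, 3 ≤ w →
      Real.log (Real.log w) - C ≤ Sg (rho (Polynomial.cyclotomic d ℤ)) w := by
    intro d hd
    have hd0 : 0 < d := Nat.pos_of_mem_divisors hd
    apply mertens_lower _ (Polynomial.cyclotomic.irreducible hd0)
    rw [Polynomial.natDegree_cyclotomic]
    exact Nat.totient_pos.2 hd0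
  choose! C hC using hM
  refine ⟨∑ d ∈ e.divisors, C d + e.divisors.card * e, fun w hw => ?_⟩
  have h1 : ∑ d ∈ e.divisors, (Real.log (Real.log w) - C d) ≤
      ∑ d ∈ e.divisors, Sg (rho (Polynomial.cyclotomic d ℤ)) w :=
    sum_le_sum fun d hd => hC d hd w hw
  rw [sum_sub_distrib, sum_const, nsmul_eq_mul] at h1
  have h2 : ∑ d ∈ e.divisors, Sg (rho (Polynomial.cyclotomic d ℤ)) w =
      ∑ p ∈ PR w, ((∑ d ∈ e.divisors, rho (Polynomial.cyclotomic d ℤ) p : ℕ) : ℝ) / p := by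
    unfold Sg
    rw [sum_comm]
    apply sum_congr rfl
    intro p _
    push_cast
    rw [sum_div]
  have h3 : ∑ p ∈ PR w, ((∑ d ∈ e.divisors, rho (Polynomial.cyclotomic d ℤ) p : ℕ) : ℝ) / p ≤
      ∑ p ∈ PR w, ((GG e p : ℝ) / p + if p ∣ e then (e.divisors.card : ℝ) else 0) := by
    apply sum_le_sum
    intro p hp
    have hpp : p.Prime := (mem_filter.1 hp).2
    have hp0 : (0 : ℝ) < p := by exact_mod_cast hpp.pos
    by_cases hpe : p ∣ e
    · rw [if_pos hpe]
      have h4 : ∑ d ∈ e.divisors, rho (Polynomial.cyclotomic d ℤ) p ≤ e.divisors.card * p := by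
        calc ∑ d ∈ e.divisors, rho (Polynomial.cyclotomic d ℤ) p ≤ ∑ d ∈ e.divisors, p := by
              apply sum_le_sum
              intro d _
              unfold rho
              refine (card_filter_le _ _).trans ?_
              rw [card_range]
          _ = _ := by rw [sum_const, smul_eq_mul]
      have h5 : ((∑ d ∈ e.divisors, rho (Polynomial.cyclotomic d ℤ) p : ℕ) : ℝ) ≤
          e.divisors.card * p := by exact_mod_cast h4
      have h6 : 0 ≤ (GG e p : ℝ) / p := by positivity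
      have h7 : ((∑ d ∈ e.divisors, rho (Polynomial.cyclotomic d ℤ) p : ℕ) : ℝ) / p ≤
          e.divisors.card := by rw [div_le_iff₀ hp0]; exact h5
      linarith
    · rw [if_neg hpe, add_zero]
      have h4 : ((∑ d ∈ e.divisors, rho (Polynomial.cyclotomic d ℤ) p : ℕ) : ℝ) ≤ GG e p := by
        exact_mod_cast sum_rho_le e p he hpp hpe
      gcongr
  rw [sum_add_distrib] at h3
  have h4 : ∑ p ∈ PR w, (if p ∣ e then (e.divisors.card : ℝ) else 0) ≤ e.divisors.card * e := by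
    rw [← sum_filter, sum_const, nsmul_eq_mul, mul_comm]
    have h5 : ((PR w).filter (fun p => p ∣ e)).card ≤ e := by
      have h6 : (PR w).filter (fun p => p ∣ e) ⊆ Icc 1 e := by
        intro p hp
        rw [mem_filter] at hp
        have hpp : p.Prime := (mem_filter.1 hp.1).2
        exact mem_Icc.2 ⟨hpp.pos, Nat.le_of_dvd he hp.2⟩
      simpa using card_le_card h6
    gcongr
  linarith

theorem sum_sq' (v : ℕ) (S : Finset ℕ) (hS : ∀ p ∈ S, 2 ≤ p ∧ p ≤ v) :
    ∑ p ∈ S, 1 / (p : ℝ) ^ 2 ≤ 2 := by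
  have h1 := sum_inv_sq S
  exact h1

theorem prod_pow' (e Q : ℕ) (he : 0 < e) (hQ : 0 < Q) : ∃ C : ℝ, 0 < C ∧ ∀ v : ℕ,
    ∏ p ∈ (Pz v).filter (fun p => ¬ p ∣ Q), wp e p ≤ C * V v ^ e.divisors.card := by
  obtain ⟨c₁, c₂, hc₁, hc₁₂, hV⟩ := cz_bounds
  obtain ⟨C, hC⟩ := sum_GG e he
  set τ := e.divisors.card with hτ
  set C1 : ℝ := Real.exp (C + e * Q + 4 * e ^ 2) / c₁ ^ τ with hC1
  refine ⟨C1 + 2 ^ τ, by positivity, fun v => ?_⟩
  have hC10 : 0 < C1 := by positivity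
  have hle1 : ∀ p ∈ (Pz v).filter (fun p => ¬ p ∣ Q), wp e p ≤ 1 := by
    intro p hp
    have hpp := (mem_Pz.1 (mem_filter.1 hp).1).1
    have h1 : (1 : ℝ) ≤ GG e p := by exact_mod_cast GG_pos e p hpp
    have h2 : (GG e p : ℝ) ≤ (p : ℝ) - 1 := by
      have := GG_lt e p he hpp
      have h3 : (GG e p : ℝ) ≤ ((p - 1 : ℕ) : ℝ) := by exact_mod_cast this
      rwa [Nat.cast_sub hpp.pos, Nat.cast_one] at h3
    have hp2 : (2 : ℝ) ≤ p := by exact_mod_cast hpp.two_le
    unfold wp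
    have h3 : 0 ≤ (GG e p : ℝ) * (p - GG e p) / (p * (p - 1)) := by
      apply div_nonneg
      · apply mul_nonneg (by linarith) (by linarith)
      · apply mul_nonneg (by linarith) (by linarith)
    linarith
  have hge0 : ∀ p ∈ (Pz v).filter (fun p => ¬ p ∣ Q), 0 ≤ wp e p := fun p hp =>
    wp_nonneg e p he (mem_Pz.1 (mem_filter.1 hp).1).1
  by_cases hv : v ≤ 2
  · have h1 : ∏ p ∈ (Pz v).filter (fun p => ¬ p ∣ Q), wp e p ≤ 1 := Finset.prod_le_one hge0 hle1
    have h2 : (1 / 2 : ℝ) ≤ V v := by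
      have hsub : Pz v ⊆ {2} := by
        intro p hp
        rw [mem_Pz] at hp
        have := hp.1.two_le
        rw [mem_singleton]
        omega
      unfold V
      rcases subset_singleton_iff.1 hsub with h | h
      · rw [h]; norm_num
      · rw [h]; norm_num
    have h3 : (1 / 2 : ℝ) ^ τ ≤ V v ^ τ := by gcongr
    have h4 : (2 : ℝ) ^ τ * (1 / 2) ^ τ = 1 := by rw [← mul_pow]; norm_num
    have h5 : (2 : ℝ) ^ τ * (1 / 2) ^ τ ≤ 2 ^ τ * V v ^ τ := by gcongr
    have h6 : 0 ≤ C1 * V v ^ τ := by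
      have := (V_pos v).le
      positivity
    nlinarith
  · push Not at hv
    have hv3 : (3 : ℝ) ≤ v := by exact_mod_cast hv
    have hlv : 0 < Real.log v := Real.log_pos (by linarith)
    have hC' := hC v hv3
    have hPR : PR (v : ℝ) = Pz v := by
      ext p
      rw [PR, mem_filter, mem_Icc, Nat.floor_natCast, mem_Pz]
      constructor
      · rintro ⟨⟨_, h⟩, hp⟩; exact ⟨hp, h⟩
      · rintro ⟨hp, h⟩; exact ⟨⟨hp.pos, h⟩, hp⟩
    rw [hPR] at hC'
    have h1 : ∀ p ∈ (Pz v).filter (fun p => ¬ p ∣ Q), wp e p ≤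
        Real.exp (-((GG e p : ℝ) / p) + 2 * e ^ 2 * (1 / (p : ℝ) ^ 2)) := by
      intro p hp
      have hpp := (mem_Pz.1 (mem_filter.1 hp).1).1
      have hp2 : (2 : ℝ) ≤ p := by exact_mod_cast hpp.two_le
      have hge : (GG e p : ℝ) ≤ e := by exact_mod_cast GG_le e p he hpp
      have hg1 : (1 : ℝ) ≤ GG e p := by exact_mod_cast GG_pos e p hpp
      have h3 := Real.add_one_le_exp (-((GG e p : ℝ) / p) + 2 * e ^ 2 * (1 / (p : ℝ) ^ 2))
      refine le_trans ?_ h3
      unfold wp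
      set g : ℝ := (GG e p : ℝ) with hg
      have hp1 : (0 : ℝ) < (p : ℝ) - 1 := by linarith
      have hp0 : (0 : ℝ) < p := by linarith
      have h4 : g * (p - g) / (p * (p - 1)) = g / p - g * (g - 1) / (p * (p - 1)) := by
        field_simp
        ring
      have h5 : g * (g - 1) / (p * (p - 1)) ≤ 2 * e ^ 2 * (1 / (p : ℝ) ^ 2) := by
        have h6 : g * (g - 1) ≤ (e : ℝ) ^ 2 := by nlinarith
        rw [mul_one_div, div_le_div_iff₀ (by positivity) (by positivity)]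
        have h7 : (p : ℝ) ^ 2 ≤ 2 * (p * (p - 1)) := by nlinarith
        have h8 : 0 ≤ g * (g - 1) := by nlinarith
        calc g * (g - 1) * (p : ℝ) ^ 2 ≤ (e : ℝ) ^ 2 * (2 * (p * (p - 1))) := by gcongr
          _ = _ := by ring
      rw [h4]
      linarith
    have h2 : ∏ p ∈ (Pz v).filter (fun p => ¬ p ∣ Q), wp e p ≤
        Real.exp (∑ p ∈ (Pz v).filter (fun p => ¬ p ∣ Q),
          (-((GG e p : ℝ) / p) + 2 * e ^ 2 * (1 / (p : ℝ) ^ 2))) := by
      rw [Real.exp_sum]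
      exact Finset.prod_le_prod hge0 h1
    refine h2.trans ?_
    rw [sum_add_distrib, ← mul_sum, sum_neg_distrib]
    have h3 : ∑ p ∈ (Pz v).filter (fun p => ¬ p ∣ Q), 1 / (p : ℝ) ^ 2 ≤ 2 := sum_inv_sq _
    have h4 : ∑ p ∈ Pz v, (GG e p : ℝ) / p =
        ∑ p ∈ (Pz v).filter (fun p => p ∣ Q), (GG e p : ℝ) / p +
        ∑ p ∈ (Pz v).filter (fun p => ¬ p ∣ Q), (GG e p : ℝ) / p :=
      (sum_filter_add_sum_filter_not _ _ _).symm
    have h5 : ∑ p ∈ (Pz v).filter (fun p => p ∣ Q), (GG e p : ℝ) / p ≤ e * Q := by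
      have h6 : ∀ p ∈ (Pz v).filter (fun p => p ∣ Q), (GG e p : ℝ) / p ≤ e := by
        intro p hp
        have hpp := (mem_Pz.1 (mem_filter.1 hp).1).1
        have hge : (GG e p : ℝ) ≤ e := by exact_mod_cast GG_le e p he hpp
        have hp1 : (1 : ℝ) ≤ p := by exact_mod_cast hpp.pos
        exact (div_le_self (Nat.cast_nonneg _) hp1).trans hge
      have h7 := sum_le_sum h6
      rw [sum_const, nsmul_eq_mul] at h7
      have h8 : ((Pz v).filter (fun p => p ∣ Q)).card ≤ Q := by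
        have h9 : (Pz v).filter (fun p => p ∣ Q) ⊆ Icc 1 Q := by
          intro p hp
          rw [mem_filter, mem_Pz] at hp
          exact mem_Icc.2 ⟨hp.1.1.pos, Nat.le_of_dvd hQ hp.2⟩
        simpa using card_le_card h9
      have h9 : (((Pz v).filter (fun p => p ∣ Q)).card : ℝ) ≤ Q := by exact_mod_cast h8
      have he0 : (0 : ℝ) ≤ e := Nat.cast_nonneg e
      nlinarith
    have h6 : -∑ p ∈ (Pz v).filter (fun p => ¬ p ∣ Q), (GG e p : ℝ) / p +
        2 * e ^ 2 * ∑ p ∈ (Pz v).filter (fun p => ¬ p ∣ Q), 1 / (p : ℝ) ^ 2 ≤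
        (C + e * Q + 4 * e ^ 2) + -(τ * Real.log (Real.log v)) := by
      have h7 : 2 * (e : ℝ) ^ 2 * ∑ p ∈ (Pz v).filter (fun p => ¬ p ∣ Q), 1 / (p : ℝ) ^ 2 ≤
          2 * e ^ 2 * 2 := by gcongr
      linarith
    calc _ ≤ Real.exp ((C + e * Q + 4 * e ^ 2) + -(τ * Real.log (Real.log v))) :=
          Real.exp_le_exp.2 h6
      _ = Real.exp (C + e * Q + 4 * e ^ 2) / (Real.log v) ^ τ := by
          rw [Real.exp_add, Real.exp_neg, mul_comm (τ : ℝ), Real.exp_mul, Real.exp_log hlv,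
            Real.rpow_natCast]
          rfl
      _ ≤ C1 * V v ^ τ := by
          rw [hC1, div_mul_eq_mul_div, div_le_div_iff₀ (by positivity) (by positivity)]
          have h7 := (hV v (by omega)).1
          have h8 : c₁ ^ τ ≤ (V v * Real.log v) ^ τ := by gcongr
          rw [mul_pow] at h8
          have h9 := Real.exp_pos (C + e * Q + 4 * e ^ 2)
          calc Real.exp (C + e * Q + 4 * e ^ 2) * c₁ ^ τ
              ≤ Real.exp (C + e * Q + 4 * e ^ 2) * (V v ^ τ * Real.log v ^ τ) := by gcongr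
            _ = _ := by ring
      _ ≤ (C1 + 2 ^ τ) * V v ^ τ := by
          have := (V_pos v).le
          gcongr
          have : (0 : ℝ) < 2 ^ τ := by positivity
          linarith

/-- powers at the record scale -/
theorem scale_pow (e D Q : ℕ) (he : 0 < e) (hQ : 0 < Q) (s : ℤ) :
    ∃ c : ℝ, 0 < c ∧ ∃ X₀ : ℝ, ∀ X : ℝ, X₀ ≤ X →
    (∀ m : ℕ, 1 ≤ m → (m : ℝ) ≤ c * FF e.divisors.card X →
      |((s * (m : ℤ) ^ e : ℤ) : ℝ)| ≤ Real.exp ((Real.log X) ^ D)) →
    ∀ r z : ℤ, ∃ n : ℤ, (z : ℝ) + X / 4 < n ∧ (n : ℝ) ≤ z + X ∧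
      (∀ q : ℕ, q.Prime → q ∣ Q → (q : ℤ) ∣ n - r) ∧
      ∀ m : ℕ, 1 ≤ m → (m : ℝ) ≤ c * FF e.divisors.card X → ¬ Prime (n + s * (m : ℤ) ^ e) := by
  obtain ⟨C, hC, hprod⟩ := prod_pow' e Q he hQ
  have hτ : 1 ≤ e.divisors.card := by
    rw [Nat.one_le_iff_ne_zero, ← Nat.pos_iff_ne_zero, card_pos]
    exact ⟨1, Nat.one_mem_divisors.2 he.ne'⟩
  obtain ⟨c, hc, X₀, h⟩ := scaleK e.divisors.card hτ C hC D Q hQ
  refine ⟨c, hc, X₀, fun X hX hfb r z => ?_⟩
  refine h X hX (fun m : ℕ => s * (m : ℤ) ^ e) ?_ ?_ hfb r z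
  · intro p m _ hpm
    exact (Dvd.dvd.pow (Int.natCast_dvd_natCast.2 hpm) he.ne').mul_left s
  · intro v R
    obtain ⟨b, hb⟩ := greedy_pow e he s ((Pz v).filter (fun p => ¬ p ∣ Q))
      (fun p hp => (mem_Pz.1 (mem_filter.1 hp).1).1) R
    refine ⟨b, hb.trans ?_⟩
    have h2 : (0 : ℝ) ≤ R.card := Nat.cast_nonneg _
    have h3 := hprod v
    gcongr

end Pool.Agent.H361R2.PA
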