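import Pool.Agent.H361R2.PA.Asm
import Pool.Agent.H398R2.RK.Surv

set_option autoImplicit false
set_option maxHeartbeats 4000000

/-! # Classes modulo the small primes, and translates of arbitrary sets without primes -/

namespace Pool.Agent.H361R2.PA

open Finset Filter Pool.Agent.H256R2.SC Pool.Agent.H256R2.SC.LG Pool.Agent.H318R2.Cr

open scoped Classical

/-- pigeonhole: one class modulo `p` contains a proportion `1/p` of `A` -/
theorem one_class (p : ℕ) (hp : 0 < p) (A : Finset ℤ) : ∃ c : ℕ,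
    ((A.filter (fun a => ¬ (p : ℤ) ∣ (c : ℤ) + a)).card : ℝ) ≤ A.card * (1 - 1 / (p : ℝ)) := by
  have hp0 : (0 : ℝ) < p := by exact_mod_cast hp
  have hp' : (0 : ℤ) < p := by exact_mod_cast hp
  obtain ⟨c, _, hc⟩ := Finset.exists_le_card_fiber_of_nsmul_le_card_of_maps_to
    (s := A) (t := range p) (f := fun a => ((-a) % (p : ℤ)).toNat) (b := (A.card : ℝ) / p)
    (by
      intro a _
      rw [mem_range]
      have h1 := Int.emod_lt_of_pos (-a) hp'
      have h2 := Int.emod_nonneg (-a) hp'.ne'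
      omega)
    ⟨0, mem_range.2 hp⟩
    (by
      rw [card_range, nsmul_eq_mul]
      rw [mul_div_cancel₀ _ hp0.ne'])
  refine ⟨c, ?_⟩
  have h1 : (A.filter (fun a => ((-a) % (p : ℤ)).toNat = c)) ⊆
      A.filter (fun a => (p : ℤ) ∣ (c : ℤ) + a) := by
    intro a ha
    rw [mem_filter] at ha ⊢
    refine ⟨ha.1, ?_⟩
    have h2 := Int.emod_nonneg (-a) hp'.ne'
    have h3 : ((-a) % (p : ℤ)) = c := by
      have := ha.2
      omega
    have h4 := Int.emod_add_mul_ediv (-a) (p : ℤ)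
    rw [h3] at h4
    exact ⟨-((-a) / (p : ℤ)), by linarith⟩
  have h2 := card_le_card h1
  have h3 := card_filter_add_card_filter_not (s := A) (fun a => (p : ℤ) ∣ (c : ℤ) + a)
  have h4 : ((A.filter (fun a => (p : ℤ) ∣ (c : ℤ) + a)).card : ℝ) +
      ((A.filter (fun a => ¬ (p : ℤ) ∣ (c : ℤ) + a)).card : ℝ) = A.card := by exact_mod_cast h3
  have h5 : ((A.filter (fun a => ((-a) % (p : ℤ)).toNat = c)).card : ℝ) ≤
      ((A.filter (fun a => (p : ℤ) ∣ (c : ℤ) + a)).card : ℝ) := by exact_mod_cast h2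
  have h6 : (A.card : ℝ) * (1 - 1 / (p : ℝ)) = A.card - A.card / p := by ring
  rw [h6]
  linarith

/-- classes modulo the primes of `S`, arbitrary set -/
theorem presieve (S : Finset ℕ) (hS : ∀ p ∈ S, p.Prime) : ∀ A : Finset ℤ, ∃ b : ℕ → ℕ,
    ((A.filter (fun a => ∀ p ∈ S, ¬ (p : ℤ) ∣ (b p : ℤ) + a)).card : ℝ) ≤
      A.card * ∏ p ∈ S, (1 - 1 / (p : ℝ)) := by
  induction S using Finset.induction_on with
  | empty => intro A; exact ⟨fun _ => 0, by simp⟩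
  | insert p S hpS ih =>
    intro A
    have hp := hS p (mem_insert_self _ _)
    obtain ⟨c, hc⟩ := one_class p hp.pos A
    obtain ⟨b, hb⟩ := ih (fun q hq => hS q (mem_insert_of_mem hq))
      (A.filter (fun a => ¬ (p : ℤ) ∣ (c : ℤ) + a))
    refine ⟨Function.update b p c, ?_⟩
    have h8 : A.filter (fun a => ∀ q ∈ insert p S, ¬ (q : ℤ) ∣ (Function.update b p c q : ℤ) + a) ⊆
        (A.filter (fun a => ¬ (p : ℤ) ∣ (c : ℤ) + a)).filter
          (fun a => ∀ q ∈ S, ¬ (q : ℤ) ∣ (b q : ℤ) + a) := by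
      intro x hx
      rw [mem_filter] at hx
      rw [mem_filter, mem_filter]
      refine ⟨⟨hx.1, ?_⟩, ?_⟩
      · have := hx.2 p (mem_insert_self _ _)
        rwa [Function.update_self] at this
      · intro q hq
        have h9 : q ≠ p := fun h => hpS (h ▸ hq)
        have := hx.2 q (mem_insert_of_mem hq)
        rwa [Function.update_of_ne h9] at this
    have h0 : 0 ≤ ∏ q ∈ S, (1 - 1 / (q : ℝ)) := prod_nonneg fun q hq =>
      (one_sub_inv_pos (hS q (mem_insert_of_mem hq))).le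
    rw [prod_insert hpS]
    calc _ ≤ (((A.filter (fun a => ¬ (p : ℤ) ∣ (c : ℤ) + a)).filter
          (fun a => ∀ q ∈ S, ¬ (q : ℤ) ∣ (b q : ℤ) + a)).card : ℝ) := by
            exact_mod_cast card_le_card h8
      _ ≤ _ := hb
      _ ≤ (A.card * (1 - 1 / (p : ℝ))) * ∏ q ∈ S, (1 - 1 / (q : ℝ)) := by gcongr
      _ = _ := by ring

/-- `log ⌊y⌋` against `log log X` -/
theorem log_floor_ge (X : ℝ) (hX : 10000 ≤ Real.log X) :
    2 ≤ ⌊Real.log X / 10⌋₊ ∧ Real.log (Real.log X) / 2 ≤ Real.log (⌊Real.log X / 10⌋₊ : ℝ) := by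
  set L := Real.log X with hL
  have h1 : L / 10 < (⌊L / 10⌋₊ : ℝ) + 1 := Nat.lt_floor_add_one _
  have h2 : 2 ≤ ⌊L / 10⌋₊ := by
    rw [Nat.le_floor_iff (by linarith)]
    push_cast
    linarith
  refine ⟨h2, ?_⟩
  have h3 : Real.sqrt L ≤ (⌊L / 10⌋₊ : ℝ) := by
    have h4 : Real.sqrt L ≤ L / 10 - 1 := by
      rw [Real.sqrt_le_left (by linarith)]
      nlinarith
    linarith
  have h5 := Real.log_le_log (Real.sqrt_pos.2 (by linarith)) h3
  rwa [Real.log_sqrt (by linarith)] at h5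

/-- the main theorem: arbitrary sets -/
theorem arbitrary (D : ℕ) : ∃ c : ℝ, 0 < c ∧ ∃ X₀ : ℝ, ∀ X : ℝ, X₀ ≤ X →
    ∀ A : Finset ℤ, (A.card : ℝ) ≤ c * (Real.log X * Real.log (Real.log X)) →
    (∀ a ∈ A, |(a : ℝ)| ≤ Real.exp ((Real.log X) ^ D)) →
    ∀ z : ℤ, ∃ n : ℤ, (z : ℝ) + X / 4 < n ∧ (n : ℝ) ≤ z + X ∧ ∀ a ∈ A, ¬ Prime (n + a) := by
  obtain ⟨c₀, hc₀, X₁, hass⟩ := assemble D
  obtain ⟨c₁, c₂, hc₁, hc₁₂, hV⟩ := cz_bounds
  have hc₂ : 0 < c₂ := hc₁.trans_le hc₁₂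
  refine ⟨min (c₀ / (2 * c₂)) 1, by positivity, max X₁ (Real.exp 10000), ?_⟩
  intro X hX A hA hAb z
  have hX1 : X₁ ≤ X := (le_max_left _ _).trans hX
  have hX2 : Real.exp 10000 ≤ X := (le_max_right _ _).trans hX
  have hX0 : 0 < X := (Real.exp_pos _).trans_le hX2
  have hL : 10000 ≤ Real.log X := by
    rw [← Real.log_exp 10000]
    exact Real.log_le_log (Real.exp_pos _) hX2
  set L := Real.log X with hLdef
  have hLL0 : 0 < Real.log L := Real.log_pos (by linarith)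
  have hLL1 : Real.log L ≤ L := (Real.log_le_sub_one_of_pos (by linarith)).trans (by linarith)
  obtain ⟨hf2, hfl⟩ := log_floor_ge X hL
  obtain ⟨b, hb⟩ := presieve (Pz ⌊L / 10⌋₊) (fun p hp => (mem_Pz.1 hp).1) A
  have hS : (((A.filter (fun a => ∀ p : ℕ, p.Prime → (p : ℝ) ≤ L / 10 →
      ¬ (p : ℤ) ∣ (b p : ℤ) + a)).card : ℕ) : ℝ) ≤ c₀ * L := by
    have h1 : A.filter (fun a => ∀ p : ℕ, p.Prime → (p : ℝ) ≤ L / 10 →
        ¬ (p : ℤ) ∣ (b p : ℤ) + a) =
        A.filter (fun a => ∀ p ∈ Pz ⌊L / 10⌋₊, ¬ (p : ℤ) ∣ (b p : ℤ) + a) := by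
      apply filter_congr
      intro a _
      constructor
      · intro h p hp
        rw [mem_Pz, Nat.le_floor_iff (by linarith)] at hp
        exact h p hp.1 hp.2
      · intro h p hp hpL
        apply h p
        rw [mem_Pz, Nat.le_floor_iff (by linarith)]
        exact ⟨hp, hpL⟩
    rw [h1]
    refine hb.trans ?_
    have h2 := (hV _ hf2).2
    have h3 : ∏ p ∈ Pz ⌊L / 10⌋₊, (1 - 1 / (p : ℝ)) = V ⌊L / 10⌋₊ := rfl
    rw [h3]
    have h4 := V_pos ⌊L / 10⌋₊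
    have h5 : V ⌊L / 10⌋₊ * (Real.log L / 2) ≤ c₂ := by
      refine le_trans ?_ h2
      gcongr
    have h6 : (A.card : ℝ) ≤ c₀ / (2 * c₂) * (L * Real.log L) := by
      refine hA.trans ?_
      have : min (c₀ / (2 * c₂)) 1 ≤ c₀ / (2 * c₂) := min_le_left _ _
      have : 0 ≤ L * Real.log L := by positivity
      gcongr
    calc (A.card : ℝ) * V ⌊L / 10⌋₊ ≤ c₀ / (2 * c₂) * (L * Real.log L) * V ⌊L / 10⌋₊ := by gcongr
      _ = c₀ / c₂ * L * (V ⌊L / 10⌋₊ * (Real.log L / 2)) := by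
        field_simp
      _ ≤ c₀ / c₂ * L * c₂ := by gcongr
      _ = c₀ * L := by field_simp
  have hA2 : (A.card : ℝ) ≤ L ^ 2 := by
    refine hA.trans ?_
    have h1 : min (c₀ / (2 * c₂)) 1 ≤ 1 := min_le_right _ _
    have h2 : 0 ≤ L * Real.log L := by positivity
    calc min (c₀ / (2 * c₂)) 1 * (L * Real.log L) ≤ 1 * (L * Real.log L) := by gcongr
      _ ≤ 1 * (L * L) := by gcongr
      _ = L ^ 2 := by ring
  obtain ⟨n, h1, h2, _, h3⟩ := hass X hX1 A hA2 hAb b hS z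
  exact ⟨n, h1, h2, h3⟩

end Pool.Agent.H361R2.PA
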