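import Pool.Agent.H361R2.PA.Pre
import Pool.Agent.H361R2.PA.Gre

set_option autoImplicit false
set_option maxHeartbeats 4000000

/-! # Translates of arbitrary sets without primes, the translate in a given class -/

namespace Pool.Agent.H361R2.PA

open Finset Filter Pool.Agent.H256R2.SC Pool.Agent.H256R2.SC.LG Pool.Agent.H318R2.Cr

open scoped Classical

theorem arbitrary_mod (D Q : ℕ) (hQ : 0 < Q) : ∃ c : ℝ, 0 < c ∧ ∃ X₀ : ℝ, ∀ X : ℝ, X₀ ≤ X →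
    ∀ A : Finset ℤ, (A.card : ℝ) ≤ c * (Real.log X * Real.log (Real.log X)) →
    (∀ a ∈ A, |(a : ℝ)| ≤ Real.exp ((Real.log X) ^ D)) →
    ∀ r z : ℤ, ∃ n : ℤ, (z : ℝ) + X / 4 < n ∧ (n : ℝ) ≤ z + X ∧
      (∀ q : ℕ, q.Prime → q ∣ Q → (q : ℤ) ∣ n - r) ∧ ∀ a ∈ A, ¬ Prime (n + a) := by
  obtain ⟨c₀, hc₀, X₁, hass⟩ := assemble D
  obtain ⟨c₁, c₂, hc₁, hc₁₂, hV⟩ := cz_bounds
  have hc₂ : 0 < c₂ := hc₁.trans_le hc₁₂
  refine ⟨min (c₀ / (2 * c₂ * 2 ^ Q)) 1, by positivity,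
    max X₁ (Real.exp (max 10000 (10 * Q))), ?_⟩
  intro X hX A hA hAb r z
  have hX1 : X₁ ≤ X := (le_max_left _ _).trans hX
  have hX2 : Real.exp (max 10000 (10 * Q)) ≤ X := (le_max_right _ _).trans hX
  have hX0 : 0 < X := (Real.exp_pos _).trans_le hX2
  have hLm : max 10000 (10 * (Q : ℝ)) ≤ Real.log X := by
    rw [← Real.log_exp (max 10000 (10 * (Q : ℝ)))]
    exact Real.log_le_log (Real.exp_pos _) hX2
  have hL : 10000 ≤ Real.log X := (le_max_left _ _).trans hLm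
  have hLQ : 10 * (Q : ℝ) ≤ Real.log X := (le_max_right _ _).trans hLm
  set L := Real.log X with hLdef
  have hLL0 : 0 < Real.log L := Real.log_pos (by linarith)
  have hLL1 : Real.log L ≤ L := (Real.log_le_sub_one_of_pos (by linarith)).trans (by linarith)
  obtain ⟨hf2, hfl⟩ := log_floor_ge X hL
  obtain ⟨b, hb⟩ := presieve ((Pz ⌊L / 10⌋₊).filter (fun p => ¬ p ∣ Q))
    (fun p hp => (mem_Pz.1 (mem_filter.1 hp).1).1) A
  set b' : ℕ → ℕ := fun p => if p ∣ Q then (r % (p : ℤ)).toNat else b p with hb'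
  have hS : (((A.filter (fun a => ∀ p : ℕ, p.Prime → (p : ℝ) ≤ L / 10 →
      ¬ (p : ℤ) ∣ (b' p : ℤ) + a)).card : ℕ) : ℝ) ≤ c₀ * L := by
    have h1 : A.filter (fun a => ∀ p : ℕ, p.Prime → (p : ℝ) ≤ L / 10 →
        ¬ (p : ℤ) ∣ (b' p : ℤ) + a) ⊆
        A.filter (fun a => ∀ p ∈ (Pz ⌊L / 10⌋₊).filter (fun p => ¬ p ∣ Q),
          ¬ (p : ℤ) ∣ (b p : ℤ) + a) := by
      intro a ha
      rw [mem_filter] at ha ⊢
      refine ⟨ha.1, fun p hp => ?_⟩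
      rw [mem_filter, mem_Pz, Nat.le_floor_iff (by linarith)] at hp
      have h2 := ha.2 p hp.1.1 hp.1.2
      have h3 : b' p = b p := by
        rw [hb']
        simp only [hp.2, if_false]
      rwa [h3] at h2
    have h1' : (((A.filter (fun a => ∀ p : ℕ, p.Prime → (p : ℝ) ≤ L / 10 →
        ¬ (p : ℤ) ∣ (b' p : ℤ) + a)).card : ℕ) : ℝ) ≤
        ((A.filter (fun a => ∀ p ∈ (Pz ⌊L / 10⌋₊).filter (fun p => ¬ p ∣ Q),
          ¬ (p : ℤ) ∣ (b p : ℤ) + a)).card : ℝ) := by exact_mod_cast card_le_card h1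
    refine h1'.trans (hb.trans ?_)
    have h2 := (hV _ hf2).2
    have hprod := prod_any Q ⌊L / 10⌋₊ hQ
    have h4 := V_pos ⌊L / 10⌋₊
    have h5 : V ⌊L / 10⌋₊ * (Real.log L / 2) ≤ c₂ := by
      refine le_trans ?_ h2
      gcongr
    have h6 : (A.card : ℝ) ≤ c₀ / (2 * c₂ * 2 ^ Q) * (L * Real.log L) := by
      refine hA.trans ?_
      have : min (c₀ / (2 * c₂ * 2 ^ Q)) 1 ≤ c₀ / (2 * c₂ * 2 ^ Q) := min_le_left _ _
      have : 0 ≤ L * Real.log L := by positivity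
      gcongr
    calc (A.card : ℝ) * ∏ p ∈ (Pz ⌊L / 10⌋₊).filter (fun p => ¬ p ∣ Q), (1 - 1 / (p : ℝ))
        ≤ A.card * (2 ^ Q * V ⌊L / 10⌋₊) := by gcongr
      _ ≤ c₀ / (2 * c₂ * 2 ^ Q) * (L * Real.log L) * (2 ^ Q * V ⌊L / 10⌋₊) := by gcongr
      _ = c₀ / c₂ * L * (V ⌊L / 10⌋₊ * (Real.log L / 2)) := by
        field_simp
      _ ≤ c₀ / c₂ * L * c₂ := by gcongr
      _ = c₀ * L := by field_simp
  have hA2 : (A.card : ℝ) ≤ L ^ 2 := by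
    refine hA.trans ?_
    have h1 : min (c₀ / (2 * c₂ * 2 ^ Q)) 1 ≤ 1 := min_le_right _ _
    have h2 : 0 ≤ L * Real.log L := by positivity
    calc min (c₀ / (2 * c₂ * 2 ^ Q)) 1 * (L * Real.log L) ≤ 1 * (L * Real.log L) := by gcongr
      _ ≤ 1 * (L * L) := by gcongr
      _ = L ^ 2 := by ring
  obtain ⟨n, h1, h2, h3, h4⟩ := hass X hX1 A hA2 hAb b' hS z
  refine ⟨n, h1, h2, ?_, h4⟩
  intro q hq hqQ
  have hqy : (q : ℝ) ≤ L / 10 := by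
    have : (q : ℝ) ≤ Q := by exact_mod_cast Nat.le_of_dvd hQ hqQ
    linarith
  have h1 := h3 q hq hqy
  have h2 : b' q = (r % (q : ℤ)).toNat := by
    rw [hb']
    simp only [hqQ, if_true]
  have hq' : (0 : ℤ) < q := by exact_mod_cast hq.pos
  have h3 : ((b' q : ℕ) : ℤ) = r % (q : ℤ) := by
    rw [h2, Int.toNat_of_nonneg (Int.emod_nonneg _ hq'.ne')]
  rw [h3] at h1
  have h4 := Int.emod_add_mul_ediv r (q : ℤ)
  obtain ⟨w, hw⟩ := h1
  exact ⟨w - r / (q : ℤ), by linarith⟩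

end Pool.Agent.H361R2.PA
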